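import Pool.Agent.J4.H62.NR.Core

set_option autoImplicit false

/-! The comparison theorem for functions of exponential type with two given zeros. -/

namespace Pool.Agent.J4.H62.NR

open Filter Topology Metric

noncomputable section

/-- the sum over the two nodes at the same distance, at a point of the central interval -/
lemma pair_sum {c δ β w : ℝ} (hβδ : β = Real.pi ^ 2 / 4 - δ) (hβ : β < Real.pi ^ 2)
    (hw : (w - c) ^ 2 + β < Real.pi ^ 2) {M : ℝ} {g : ℂ → ℂ} (k : ℕ)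
    (hg : ∀ b : Bool, ‖((nd c β (k, b) - c) ^ 2 - δ) * g (nd c β (k, b))‖ ≤ M) :
    ∑ b : Bool, ‖g (nd c β (k, b))‖ / ‖deriv (Sf c β) (nd c β (k, b))‖ / ‖(w:ℂ) - nd c β (k, b)‖ ≤
      M * (2 * (Real.pi * (k + 1)) ^ 2 / (((Real.pi * (k + 1)) ^ 2 - Real.pi ^ 2 / 4) *
        ((Real.pi * (k + 1)) ^ 2 - ((w - c) ^ 2 + β)))) := by
  have hpi := Real.pi_gt_three
  have hr := rr_pos hβ k
  have hr2 := rr_sq hβ k
  set r := rr β k with hrd
  set N := (Real.pi * ((k:ℝ) + 1)) ^ 2 with hN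
  have hN1 : Real.pi ^ 2 ≤ N := node_ge k
  have hNq : 0 < N - Real.pi ^ 2 / 4 := by nlinarith
  have hN0 : 0 < N := by nlinarith
  set x := w - c with hx
  have hxr : x ^ 2 < r ^ 2 := by rw [hr2]; linarith
  have hxr' : |x| < r := by
    rw [← sq_abs] at hxr
    exact (pow_lt_pow_iff_left₀ (abs_nonneg _) hr.le (by norm_num)).1 hxr
  obtain ⟨hx1, hx2⟩ := abs_lt.1 hxr'
  have hgb : ∀ b : Bool, ‖g (nd c β (k, b))‖ ≤ M / (N - Real.pi ^ 2 / 4) := by
    intro b
    have h1 := hg b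
    have e1 : (nd c β (k, b) - c) ^ 2 - (δ:ℂ) = ((N - Real.pi ^ 2 / 4 : ℝ) : ℂ) := by
      rw [(nd_sub c β hβ (k, b)).1]
      simp only
      rw [← hrd, hr2, hβδ]
      push_cast; ring
    rw [e1, norm_mul, Complex.norm_real, Real.norm_eq_abs, abs_of_pos hNq] at h1
    rw [le_div_iff₀ hNq, mul_comm]
    exact h1
  have hM : 0 ≤ M := (norm_nonneg _).trans (hg true)
  have hd : ∀ b : Bool, ‖deriv (Sf c β) (nd c β (k, b))‖ = r / N := fun b => (Sf_nd hβ (k, b)).2
  have hwt : ‖(w:ℂ) - nd c β (k, true)‖ = r - x := by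
    have : (w:ℂ) - nd c β (k, true) = ((x - r : ℝ) : ℂ) := by
      unfold nd
      simp only [if_true]
      rw [← hrd, hx]; push_cast; ring
    rw [this, Complex.norm_real, Real.norm_eq_abs, abs_sub_comm, abs_of_pos (by linarith)]
  have hwf : ‖(w:ℂ) - nd c β (k, false)‖ = r + x := by
    have : (w:ℂ) - nd c β (k, false) = ((x + r : ℝ) : ℂ) := by
      unfold nd
      simp only [Bool.false_eq_true, if_false]
      rw [← hrd, hx]; push_cast; ring
    rw [this, Complex.norm_real, Real.norm_eq_abs, abs_of_pos (by linarith), add_comm]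
  rw [Fintype.sum_bool, hd, hd, hwt, hwf]
  have h1 : 0 < r - x := by linarith
  have h2 : 0 < r + x := by linarith
  calc ‖g (nd c β (k, true))‖ / (r / N) / (r - x) + ‖g (nd c β (k, false))‖ / (r / N) / (r + x) ≤
      M / (N - Real.pi ^ 2 / 4) / (r / N) / (r - x) + M / (N - Real.pi ^ 2 / 4) / (r / N) / (r + x) := by
        gcongr
        · exact hgb true
        · exact hgb false
    _ = M * (2 * N / ((N - Real.pi ^ 2 / 4) * (r ^ 2 - x ^ 2))) := by
        have h3 : r ^ 2 - x ^ 2 = (r - x) * (r + x) := by ring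
        rw [h3]
        generalize N - Real.pi ^ 2 / 4 = Q at *
        field_simp
        ring
    _ = _ := by
        have e1 : r ^ 2 - x ^ 2 = N - (x ^ 2 + β) := by rw [hr2]; ring
        rw [e1]

/-- the sum over the two nodes at the same distance, on the circle -/
lemma pair_sph {c δ β K ε : ℝ} (hK : 0 < K) (hε : 0 < ε) (hβδ : β = Real.pi ^ 2 / 4 - δ) (hβ : β ≤ Real.pi ^ 2 - ε)
    (hβK : |β| ≤ K) {n : ℕ} (hn : K ≤ n) {M : ℝ} {g : ℂ → ℂ} {k : ℕ} (hk : k < n)
    (hg : ∀ b : Bool, ‖((nd c β (k, b) - c) ^ 2 - δ) * g (nd c β (k, b))‖ ≤ M) {z : ℂ} (hz : ‖z - c‖ = rho n) :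
    ∑ b : Bool, ‖g (nd c β (k, b))‖ / ‖deriv (Sf c β) (nd c β (k, b))‖ / ‖z - nd c β (k, b)‖ ≤
      M * (8 / Real.sqrt (min ε 1)) * (1 / (((k:ℝ) + 1) * (n - k))) := by
  have hpi := Real.pi_gt_three
  have hβ' : β < Real.pi ^ 2 := by linarith
  have hr := rr_pos hβ' k
  have hr2 := rr_sq hβ' k
  have hrl := rr_low hε hβ k
  have hrf := rr_far hK hβ' hβK hn hk
  set r := rr β k with hrd
  set N := (Real.pi * ((k:ℝ) + 1)) ^ 2 with hN
  have hN1 : Real.pi ^ 2 ≤ N := node_ge k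
  have hNq : 0 < N - Real.pi ^ 2 / 4 := by nlinarith
  have hN0 : 0 < N := by nlinarith
  have hkn : (k:ℝ) + 1 ≤ n := by exact_mod_cast hk
  have hnk : 0 < (n:ℝ) - k := by linarith
  have hM : 0 ≤ M := (norm_nonneg _).trans (hg true)
  have hgb : ∀ b : Bool, ‖g (nd c β (k, b))‖ ≤ M / (N - Real.pi ^ 2 / 4) := by
    intro b
    have h1 := hg b
    have e1 : (nd c β (k, b) - c) ^ 2 - (δ:ℂ) = ((N - Real.pi ^ 2 / 4 : ℝ) : ℂ) := by
      rw [(nd_sub c β hβ' (k, b)).1]
      simp only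
      rw [← hrd, hr2, hβδ]
      push_cast; ring
    rw [e1, norm_mul, Complex.norm_real, Real.norm_eq_abs, abs_of_pos hNq] at h1
    rw [le_div_iff₀ hNq, mul_comm]
    exact h1
  have hd : ∀ b : Bool, ‖deriv (Sf c β) (nd c β (k, b))‖ = r / N := fun b => (Sf_nd hβ' (k, b)).2
  have hzb : ∀ b : Bool, ((n:ℝ) - k) / 2 ≤ ‖z - nd c β (k, b)‖ := by
    intro b
    have h1 : ‖z - c‖ ≤ ‖z - nd c β (k, b)‖ + ‖nd c β (k, b) - c‖ := by
      calc ‖z - c‖ = ‖(z - nd c β (k, b)) + (nd c β (k, b) - c)‖ := by congr 1; ring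
        _ ≤ _ := norm_add_le _ _
    rw [hz, (nd_sub c β hβ' (k, b)).2] at h1
    simp only at h1
    linarith
  have hq : 0 < Real.sqrt (min ε 1) := by positivity
  have key : ∀ b : Bool, ‖g (nd c β (k, b))‖ / ‖deriv (Sf c β) (nd c β (k, b))‖ / ‖z - nd c β (k, b)‖ ≤
      M * (4 / Real.sqrt (min ε 1)) * (1 / (((k:ℝ) + 1) * (n - k))) := by
    intro b
    rw [hd]
    have hzp : 0 < ‖z - nd c β (k, b)‖ := lt_of_lt_of_le (by positivity) (hzb b)
    calc ‖g (nd c β (k, b))‖ / (r / N) / ‖z - nd c β (k, b)‖ ≤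
        M / (N - Real.pi ^ 2 / 4) / (r / N) / (((n:ℝ) - k) / 2) := by
          gcongr
          · exact hgb b
          · exact hzb b
      _ = M * (N / (N - Real.pi ^ 2 / 4)) * (1 / r) * (2 / ((n:ℝ) - k)) := by
          generalize N - Real.pi ^ 2 / 4 = Q at *
          field_simp
      _ ≤ M * 2 * (1 / (Real.sqrt (min ε 1) * (k + 1))) * (2 / ((n:ℝ) - k)) := by
          have h3 : N / (N - Real.pi ^ 2 / 4) ≤ 2 := by
            rw [div_le_iff₀ hNq]
            nlinarith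
          gcongr
      _ = _ := by
          field_simp
          ring
  rw [Fintype.sum_bool]
  have h1 := key true
  have h2 := key false
  have e : M * (8 / Real.sqrt (min ε 1)) * (1 / (((k:ℝ) + 1) * (n - k))) =
      M * (4 / Real.sqrt (min ε 1)) * (1 / (((k:ℝ) + 1) * (n - k))) +
      M * (4 / Real.sqrt (min ε 1)) * (1 / (((k:ℝ) + 1) * (n - k))) := by ring
  rw [e]
  exact add_le_add h1 h2

/-- the value of the interpolating function at a real point -/
lemma Sf_real {c β w s : ℝ} (hs0 : 0 < s) (hs : s ^ 2 = (w - c) ^ 2 + β) :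
    ‖Sf c β w‖ = |Real.sin s| / s := by
  have h1 := Sn_sq (s : ℂ)
  have e1 : ((s:ℂ)) ^ 2 = ((w:ℂ) - c) ^ 2 + β := by
    have := congrArg (fun x : ℝ => (x:ℂ)) hs
    push_cast at this
    exact this
  rw [e1] at h1
  have h2 := congrArg norm h1
  rw [norm_mul, Complex.norm_real, Real.norm_eq_abs, abs_of_pos hs0, ← Complex.ofReal_sin,
    Complex.norm_real, Real.norm_eq_abs] at h2
  unfold Sf
  rw [eq_div_iff hs0.ne', mul_comm]
  exact h2

/-- **the comparison theorem**: if `f = ((z - c)² - δ) g` is bounded by `M` on the real axis and by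
`C₀ M exp |Im z|` on a large circle, then `|f| ≤ (|cos √((w - c)² - δ + π²/4)| + ε) M` at the real points `w` with
`(w - c)² - δ < 3π²/4` -/
theorem cmp {C0 K ε : ℝ} (hC0 : 0 < C0) (hK : 0 < K) (hε : 0 < ε) : ∃ n0 : ℕ, ∀ n : ℕ, n0 ≤ n →
    ∀ (c δ w M : ℝ) (g : ℂ → ℂ), |δ| ≤ K → -(3 / 4 * Real.pi ^ 2) + ε ≤ δ → 0 ≤ M →
    DifferentiableOn ℂ g (ball (c:ℂ) (rho n + 1)) →
    (∀ x : ℝ, |x - c| ≤ rho n → ‖(((x:ℂ) - c) ^ 2 - δ) * g x‖ ≤ M) →
    (∀ z : ℂ, ‖z - c‖ = rho n → ‖((z - c) ^ 2 - δ) * g z‖ ≤ C0 * M * Real.exp |z.im|) →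
    (w - c) ^ 2 - δ < 3 / 4 * Real.pi ^ 2 →
    ‖(((w:ℂ) - c) ^ 2 - δ) * g w‖ ≤ (|Real.cos (Real.sqrt ((w - c) ^ 2 - δ + Real.pi ^ 2 / 4))| + ε) * M := by
  have hpi := Real.pi_gt_three
  set K' := K + Real.pi ^ 2 / 4 with hK'
  have hK'0 : 0 < K' := by positivity
  obtain ⟨n1, hn1⟩ := sph_low hK'0
  set D := 8 / Real.sqrt (min ε 1) with hD
  have hD0 : 0 < D := by positivity
  -- the error
  have hlim : Tendsto (fun n : ℕ => Real.pi ^ 2 * (40 * C0 / rho n + D * ∑ k ∈ Finset.range n,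
      1 / (((k:ℝ) + 1) * ((n:ℝ) - k)))) atTop (𝓝 0) := by
    have h1 : Tendsto rho atTop atTop := by
      unfold rho
      refine Tendsto.const_mul_atTop Real.pi_pos ?_
      exact tendsto_atTop_add_const_right _ _ tendsto_natCast_atTop_atTop
    have h2 : Tendsto (fun n : ℕ => 40 * C0 / rho n) atTop (𝓝 0) := tendsto_const_nhds.div_atTop h1
    have h3 := (h2.add (err_lim.const_mul D)).const_mul (Real.pi ^ 2)
    simpa using h3
  obtain ⟨n2, hn2⟩ := eventually_atTop.1 (hlim.eventually_le_const hε)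
  obtain ⟨n3, hn3⟩ := exists_nat_ge (K' + 10)
  refine ⟨max n1 (max n2 n3), fun n hn c δ w M g hδK hδ hM hg hreal hsph hw => ?_⟩
  have hn1' : n1 ≤ n := (le_max_left _ _).trans hn
  have hn2' : n2 ≤ n := ((le_max_left _ _).trans (le_max_right _ _)).trans hn
  have hn3' : K' + 10 ≤ n := hn3.trans (by
    exact_mod_cast ((le_max_right _ _).trans (le_max_right _ _)).trans hn)
  have hρn : (n:ℝ) ≤ rho n := by
    unfold rho
    have : (0:ℝ) ≤ n := Nat.cast_nonneg n
    nlinarith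
  have hρ0 : 0 < rho n := by linarith
  set β := Real.pi ^ 2 / 4 - δ with hβd
  have hβ : β ≤ Real.pi ^ 2 - ε := by rw [hβd]; linarith
  have hβ' : β < Real.pi ^ 2 := by linarith
  have hδ' := abs_le.1 hδK
  have hβK : |β| ≤ K' := by
    rw [abs_le, hβd, hK']
    constructor <;> nlinarith [hδ'.1, hδ'.2]
  have e0 : (w - c) ^ 2 - δ + Real.pi ^ 2 / 4 = (w - c) ^ 2 + β := by rw [hβd]; ring
  rw [e0]
  have hs2 : (w - c) ^ 2 + β < Real.pi ^ 2 := by rw [hβd]; linarith
  -- `w` is in the disc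
  have hwc : |w - c| ≤ rho n := by
    have h1 : (w - c) ^ 2 ≤ (rho n) ^ 2 := by
      have h2 : -K' ≤ β := (abs_le.1 hβK).1
      have h3 : (w - c) ^ 2 ≤ Real.pi ^ 2 + K' := by linarith
      have h4 : Real.pi ^ 2 ≤ 10 := by nlinarith [Real.pi_lt_d2]
      nlinarith
    have := Real.sqrt_le_sqrt h1
    rwa [Real.sqrt_sq_eq_abs, Real.sqrt_sq hρ0.le] at this
  by_cases hneg : (w - c) ^ 2 + β ≤ 0
  · rw [Real.sqrt_eq_zero_of_nonpos hneg, Real.cos_zero, abs_one]
    have h1 := hreal w hwc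
    nlinarith
  push Not at hneg
  set s := Real.sqrt ((w - c) ^ 2 + β) with hs
  have hss : s ^ 2 = (w - c) ^ 2 + β := Real.sq_sqrt hneg.le
  have hs0 : 0 < s := Real.sqrt_pos.2 hneg
  have hspi : s < Real.pi := by
    rw [← hss] at hs2
    exact (pow_lt_pow_iff_left₀ hs0.le (by linarith) (by norm_num)).1 hs2
  set I := Finset.range n ×ˢ (Finset.univ : Finset Bool) with hI
  have hmem : ∀ i ∈ I, nd c β i ∈ ball (c:ℂ) (rho n) := by
    intro i hi
    rw [hI, Finset.mem_product, Finset.mem_range] at hi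
    rw [mem_ball, dist_eq_norm, (nd_sub c β hβ' i).2]
    have h1 := rr_far hK'0 hβ' hβK (by linarith : K' ≤ n) hi.1
    have h2 : (i.1:ℝ) < n := by exact_mod_cast hi.1
    linarith
  have hgnd : ∀ i ∈ I, ‖((nd c β i - c) ^ 2 - δ) * g (nd c β i)‖ ≤ M := by
    intro i hi
    have h1 := hmem i hi
    rw [mem_ball, dist_eq_norm] at h1
    have h2 : nd c β i = (((c + (if i.2 then rr β i.1 else -rr β i.1) : ℝ)) : ℂ) := rfl
    rw [h2] at h1 ⊢
    refine hreal _ ?_
    rw [← Complex.ofReal_sub, Complex.norm_real, Real.norm_eq_abs] at h1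
    exact h1.le
  set B := M * (40 * C0 / rho n + D * ∑ k ∈ Finset.range n, 1 / (((k:ℝ) + 1) * ((n:ℝ) - k))) with hB
  have hkey := interp (c:ℂ) hρ0 (by linarith : rho n < rho n + 1) (nd c β) (B := B) I (S := Sf c β) (g := g)
    (nd_inj hβ').injOn hmem (Sf_diff c β).differentiableOn hg (fun i _ => (Sf_nd hβ' i).1) (fun i _ h0 => by
      have h1 := (Sf_nd (c := c) hβ' i).2
      rw [h0, norm_zero] at h1
      have h2 := rr_pos hβ' i.1
      have h3 : 0 < rr β i.1 / (Real.pi * (i.1 + 1)) ^ 2 := by positivity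
      linarith) (fun z hz hne => Sf_ne hβ' hβK (by linarith : K' ≤ n) (by
      rw [mem_closedBall, dist_eq_norm] at hz; exact hz) hne) (fun z hz => by
      rw [mem_sphere, dist_eq_norm] at hz
      have h1 : ∑ i ∈ I, ‖g (nd c β i)‖ / ‖deriv (Sf c β) (nd c β i)‖ / ‖z - nd c β i‖ ≤
          M * D * ∑ k ∈ Finset.range n, 1 / (((k:ℝ) + 1) * ((n:ℝ) - k)) := by
        rw [hI, Finset.sum_product, Finset.mul_sum]
        refine Finset.sum_le_sum fun k hk => ?_
        refine pair_sph hK'0 hε hβd hβ hβK (by linarith : K' ≤ n) (Finset.mem_range.1 hk) (fun b => ?_) hz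
        exact hgnd (k, b) (by rw [hI, Finset.mem_product]; exact ⟨hk, Finset.mem_univ _⟩)
      have h2 := hn1 n hn1' (z - c) hz β hβK
      have e2 : (z - c).im = z.im := by simp
      have e3 : (z - c) ^ 2 + (β:ℂ) - ((Real.pi ^ 2 / 4 : ℝ) : ℂ) = (z - c) ^ 2 - δ := by
        rw [hβd]; push_cast; ring
      rw [e2, e3] at h2
      have h3 : rho n * Real.exp |z.im| ≤ 40 * (‖(z - c) ^ 2 - (δ:ℂ)‖ * ‖Sf c β z‖) := h2
      have h4 := hsph z hz
      rw [norm_mul] at h4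
      have hq0 : 0 < ‖(z - c) ^ 2 - (δ:ℂ)‖ := by
        rcases (norm_nonneg ((z - c) ^ 2 - (δ:ℂ))).eq_or_lt with h5 | h5
        · exfalso
          rw [← h5, zero_mul, mul_zero] at h3
          have : 0 < rho n * Real.exp |z.im| := mul_pos hρ0 (Real.exp_pos _)
          linarith
        · exact h5
      have h5 : ‖g z‖ ≤ M * (40 * C0 / rho n) * ‖Sf c β z‖ := by
        have h6 : ‖(z - c) ^ 2 - (δ:ℂ)‖ * ‖g z‖ ≤ ‖(z - c) ^ 2 - (δ:ℂ)‖ * (M * (40 * C0 / rho n) * ‖Sf c β z‖) := by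
          refine h4.trans ?_
          have h7 : C0 * M / rho n * (rho n * Real.exp |z.im|) ≤ C0 * M / rho n *
              (40 * (‖(z - c) ^ 2 - (δ:ℂ)‖ * ‖Sf c β z‖)) := mul_le_mul_of_nonneg_left h3 (by positivity)
          have e4 : C0 * M / rho n * (rho n * Real.exp |z.im|) = C0 * M * Real.exp |z.im| := by
            field_simp
          rw [e4] at h7
          refine h7.trans (le_of_eq ?_)
          ring
        exact le_of_mul_le_mul_left h6 hq0
      have h6 := mul_le_mul_of_nonneg_right h1 (norm_nonneg (Sf c β z))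
      rw [hB]
      refine (add_le_add h5 h6).trans (le_of_eq ?_)
      ring) (w := (w:ℂ)) (by
      rw [mem_closedBall, dist_eq_norm, ← Complex.ofReal_sub, Complex.norm_real]; exact hwc) (fun i hi h => by
      have h1 := (nd_sub c β hβ' i).1
      rw [← h] at h1
      have h2 : ((w:ℂ) - c) ^ 2 = (((w - c) ^ 2 : ℝ) : ℂ) := by push_cast; ring
      rw [h2] at h1
      have h3 := Complex.ofReal_injective h1
      rw [rr_sq hβ'] at h3
      linarith [node_ge i.1])
  rw [Sf_real hs0 hss] at hkey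
  -- the sum at `w`
  have hsum : ∑ i ∈ I, ‖g (nd c β i)‖ / ‖deriv (Sf c β) (nd c β i)‖ / ‖(w:ℂ) - nd c β i‖ ≤
      M * ∑ k ∈ Finset.range n, Fk s k := by
    rw [hI, Finset.sum_product, Finset.mul_sum]
    refine Finset.sum_le_sum fun k hk => ?_
    have h1 := pair_sum (c := c) (δ := δ) (β := β) (w := w) hβd hβ' hs2 (M := M) (g := g) k (fun b =>
      hgnd (k, b) (by rw [hI, Finset.mem_product]; exact ⟨hk, Finset.mem_univ _⟩))
    rw [← hss] at h1
    exact h1
  have hq : ‖((w:ℂ) - c) ^ 2 - δ‖ = |s ^ 2 - Real.pi ^ 2 / 4| := by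
    have : ((w:ℂ) - c) ^ 2 - δ = ((s ^ 2 - Real.pi ^ 2 / 4 : ℝ) : ℂ) := by
      rw [hss, hβd]; push_cast; ring
    rw [this, Complex.norm_real, Real.norm_eq_abs]
  rw [norm_mul, hq]
  set Q := |s ^ 2 - Real.pi ^ 2 / 4| with hQ
  have hQ0 : 0 ≤ Q := abs_nonneg _
  have hQ1 : Q ≤ Real.pi ^ 2 := by
    rw [hQ, abs_le]
    constructor <;> nlinarith
  have hsin : |Real.sin s| / s ≤ 1 := by
    rw [div_le_one hs0]
    exact Real.abs_sin_le_abs.trans_eq (abs_of_pos hs0)
  have hsin0 : 0 ≤ |Real.sin s| / s := by positivity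
  have hB0 : 0 ≤ B := by
    rw [hB]
    have : 0 ≤ ∑ k ∈ Finset.range n, 1 / (((k:ℝ) + 1) * ((n:ℝ) - k)) := by
      refine Finset.sum_nonneg fun k hk => ?_
      have hkn : (k:ℝ) < n := by exact_mod_cast Finset.mem_range.1 hk
      have : 0 < (n:ℝ) - k := by linarith
      positivity
    positivity
  have hF := Fk_sum hs0 hspi n
  calc Q * ‖g w‖ ≤ Q * (|Real.sin s| / s * (B + M * ∑ k ∈ Finset.range n, Fk s k)) := by
        refine mul_le_mul_of_nonneg_left (hkey.trans ?_) hQ0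
        gcongr
    _ = (Q * (|Real.sin s| / s)) * B + M * (Q * (|Real.sin s| / s) * ∑ k ∈ Finset.range n, Fk s k) := by ring
    _ ≤ (Real.pi ^ 2 * 1) * B + M * |Real.cos s| := by
        gcongr
    _ ≤ ε * M + M * |Real.cos s| := by
        have h1 := hn2 n hn2'
        have e1 : (Real.pi ^ 2 * 1) * B = (Real.pi ^ 2 * (40 * C0 / rho n + D * ∑ k ∈ Finset.range n,
          1 / (((k:ℝ) + 1) * ((n:ℝ) - k)))) * M := by rw [hB]; ring
        rw [e1]
        have := mul_le_mul_of_nonneg_right h1 hM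
        linarith
    _ = _ := by ring

end

end Pool.Agent.J4.H62.NR
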