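import Mathlib

set_option autoImplicit false

/-! The maximum principle for a quotient, and interpolation at the zeros of a function. -/

namespace Pool.Agent.J4.H62.NR

open Complex Filter Topology Metric

noncomputable section

/-- the maximum principle for a quotient `G / S` -/
lemma mq {ι : Type*} (a : ℂ) {ρ ρ' : ℝ} (hρ0 : 0 < ρ) (hρ : ρ < ρ') (e : ι → ℂ) {B : ℝ} (I : Finset ι) :
    ∀ (S G : ℂ → ℂ), Set.InjOn e (I : Set ι) → (∀ i ∈ I, e i ∈ ball a ρ) →
    DifferentiableOn ℂ S (ball a ρ') → DifferentiableOn ℂ G (ball a ρ') →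
    (∀ i ∈ I, S (e i) = 0) → (∀ i ∈ I, deriv S (e i) ≠ 0) → (∀ i ∈ I, G (e i) = 0) →
    (∀ z ∈ closedBall a ρ, (∀ i ∈ I, z ≠ e i) → S z ≠ 0) →
    (∀ z ∈ sphere a ρ, ‖G z‖ ≤ B * ‖S z‖) → ∀ w ∈ closedBall a ρ, ‖G w‖ ≤ B * ‖S w‖ := by
  classical
  have hsub : closedBall a ρ ⊆ ball a ρ' := closedBall_subset_ball hρ
  induction I using Finset.induction_on with
  | empty =>
    intro S G _ _ hS hG _ _ _ hne hsph w hw
    have hne' : ∀ z ∈ closedBall a ρ, S z ≠ 0 := fun z hz => hne z hz (by simp)
    have hd : DifferentiableOn ℂ (fun z => G z / S z) (closedBall a ρ) :=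
      (hG.mono hsub).div (hS.mono hsub) hne'
    have h1 := Complex.norm_le_of_forall_mem_frontier_norm_le (U := ball a ρ) (C := B) isBounded_ball
      (hd.diffContOnCl_ball subset_rfl) (fun z hz => by
        rw [frontier_ball a hρ0.ne'] at hz
        have h2 := hsph z hz
        have h3 : 0 < ‖S z‖ := norm_pos_iff.2 (hne' z (sphere_subset_closedBall hz))
        rw [norm_div, div_le_iff₀ h3]
        exact h2) (z := w) (by rw [closure_ball a hρ0.ne']; exact hw)
    have h3 : 0 < ‖S w‖ := norm_pos_iff.2 (hne' w hw)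
    rwa [norm_div, div_le_iff₀ h3] at h1
  | insert i I hi IH =>
    intro S G hinj hmem hS hG hS0 hS1 hG0 hne hsph w hw
    have hei : e i ∈ ball a ρ := hmem i (Finset.mem_insert_self i I)
    have hei' : e i ∈ ball a ρ' := hsub (ball_subset_closedBall hei)
    have hnhds : ball a ρ' ∈ 𝓝 (e i) := isOpen_ball.mem_nhds hei'
    have hSi := hS0 i (Finset.mem_insert_self i I)
    have hGi := hG0 i (Finset.mem_insert_self i I)
    have hneq : ∀ j ∈ I, e j ≠ e i := by
      intro j hj h
      have := hinj (Finset.mem_coe.2 (Finset.mem_insert_of_mem hj)) (Finset.mem_coe.2 (Finset.mem_insert_self i I)) h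
      rw [this] at hj
      exact hi hj
    have hSf : ∀ z, S z = (z - e i) * dslope S (e i) z := by
      intro z
      have := sub_smul_dslope S (e i) z
      rw [hSi, sub_zero, smul_eq_mul] at this
      exact this.symm
    have hGf : ∀ z, G z = (z - e i) * dslope G (e i) z := by
      intro z
      have := sub_smul_dslope G (e i) z
      rw [hGi, sub_zero, smul_eq_mul] at this
      exact this.symm
    have hS' : DifferentiableOn ℂ (dslope S (e i)) (ball a ρ') := (Complex.differentiableOn_dslope hnhds).2 hS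
    have hG' : DifferentiableOn ℂ (dslope G (e i)) (ball a ρ') := (Complex.differentiableOn_dslope hnhds).2 hG
    have hIH := IH (dslope S (e i)) (dslope G (e i))
      (hinj.mono (by simp)) (fun j hj => hmem j (Finset.mem_insert_of_mem hj)) hS' hG' (by
        intro j hj
        have h1 := hSf (e j)
        rw [hS0 j (Finset.mem_insert_of_mem hj)] at h1
        exact (mul_eq_zero.1 h1.symm).resolve_left (sub_ne_zero.2 (hneq j hj))) (by
        intro j hj h0
        apply hS1 j (Finset.mem_insert_of_mem hj)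
        have hej : e j ∈ ball a ρ' := hsub (ball_subset_closedBall (hmem j (Finset.mem_insert_of_mem hj)))
        have hd1 : HasDerivAt (dslope S (e i)) (deriv (dslope S (e i)) (e j)) (e j) :=
          (hS'.differentiableAt (isOpen_ball.mem_nhds hej)).hasDerivAt
        have h1 : HasDerivAt (fun z => (z - e i) * dslope S (e i) z)
            (1 * dslope S (e i) (e j) + (e j - e i) * deriv (dslope S (e i)) (e j)) (e j) :=
          ((hasDerivAt_id (e j)).sub_const (e i)).mul hd1
        have h2 : (fun z => (z - e i) * dslope S (e i) z) = S := (funext hSf).symm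
        rw [h2] at h1
        have h3 := hSf (e j)
        rw [hS0 j (Finset.mem_insert_of_mem hj)] at h3
        have h4 := (mul_eq_zero.1 h3.symm).resolve_left (sub_ne_zero.2 (hneq j hj))
        rw [h1.deriv, h0, h4]
        simp) (by
        intro j hj
        have h1 := hGf (e j)
        rw [hG0 j (Finset.mem_insert_of_mem hj)] at h1
        exact (mul_eq_zero.1 h1.symm).resolve_left (sub_ne_zero.2 (hneq j hj))) (by
        intro z hz hzI h0
        by_cases hzi : z = e i
        · rw [hzi, dslope_same] at h0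
          exact hS1 i (Finset.mem_insert_self i I) h0
        · refine hne z hz (fun j hj => ?_) (by rw [hSf z, h0, mul_zero])
          rcases Finset.mem_insert.1 hj with rfl | hj
          · exact hzi
          · exact hzI j hj) (by
        intro z hz
        have h1 := hsph z hz
        rw [hGf z, hSf z, norm_mul, norm_mul] at h1
        have h2 : 0 < ‖z - e i‖ := by
          rw [norm_pos_iff, sub_ne_zero]
          rintro rfl
          rw [mem_sphere] at hz
          rw [mem_ball] at hei
          linarith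
        have h3 : ‖z - e i‖ * ‖dslope G (e i) z‖ ≤ ‖z - e i‖ * (B * ‖dslope S (e i) z‖) := by
          linarith
        exact le_of_mul_le_mul_left h3 h2) w hw
    rw [hGf w, hSf w, norm_mul, norm_mul]
    calc ‖w - e i‖ * ‖dslope G (e i) w‖ ≤ ‖w - e i‖ * (B * ‖dslope S (e i) w‖) :=
          mul_le_mul_of_nonneg_left hIH (norm_nonneg _)
      _ = _ := by ring

/-- interpolation at the zeros of `S` -/
lemma interp {ι : Type*} (a : ℂ) {ρ ρ' : ℝ} (hρ0 : 0 < ρ) (hρ : ρ < ρ') (e : ι → ℂ) {B : ℝ} (I : Finset ι)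
    {S g : ℂ → ℂ} (hinj : Set.InjOn e (I : Set ι)) (hmem : ∀ i ∈ I, e i ∈ ball a ρ)
    (hS : DifferentiableOn ℂ S (ball a ρ')) (hg : DifferentiableOn ℂ g (ball a ρ'))
    (hS0 : ∀ i ∈ I, S (e i) = 0) (hS1 : ∀ i ∈ I, deriv S (e i) ≠ 0)
    (hne : ∀ z ∈ closedBall a ρ, (∀ i ∈ I, z ≠ e i) → S z ≠ 0)
    (hsph : ∀ z ∈ sphere a ρ, ‖g z‖ + (∑ i ∈ I, ‖g (e i)‖ / ‖deriv S (e i)‖ / ‖z - e i‖) * ‖S z‖ ≤ B * ‖S z‖)
    {w : ℂ} (hw : w ∈ closedBall a ρ) (hwe : ∀ i ∈ I, w ≠ e i) :
    ‖g w‖ ≤ ‖S w‖ * (B + ∑ i ∈ I, ‖g (e i)‖ / ‖deriv S (e i)‖ / ‖w - e i‖) := by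
  classical
  have hsub : closedBall a ρ ⊆ ball a ρ' := closedBall_subset_ball hρ
  have hnh : ∀ i ∈ I, ball a ρ' ∈ 𝓝 (e i) := fun i hi =>
    isOpen_ball.mem_nhds (hsub (ball_subset_closedBall (hmem i hi)))
  have hds : ∀ i ∈ I, ∀ z, z ≠ e i → dslope S (e i) z = S z / (z - e i) := by
    intro i hi z hz
    rw [dslope_of_ne _ hz, slope_def_field, hS0 i hi, sub_zero]
  set b : ι → ℂ := fun i => g (e i) / deriv S (e i) with hb
  set G : ℂ → ℂ := fun z => g z - ∑ i ∈ I, b i * dslope S (e i) z with hG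
  have hG' : DifferentiableOn ℂ G (ball a ρ') := by
    refine hg.sub (DifferentiableOn.fun_sum fun i hi => ?_)
    exact ((Complex.differentiableOn_dslope (hnh i hi)).2 hS).const_mul _
  have hsum : ∀ z, (∀ i ∈ I, z ≠ e i) → ‖∑ i ∈ I, b i * dslope S (e i) z‖ ≤
      (∑ i ∈ I, ‖g (e i)‖ / ‖deriv S (e i)‖ / ‖z - e i‖) * ‖S z‖ := by
    intro z hz
    rw [Finset.sum_mul]
    refine (norm_sum_le _ _).trans (Finset.sum_le_sum fun i hi => le_of_eq ?_)
    rw [hds i hi z (hz i hi)]
    simp only [hb]
    rw [norm_mul, norm_div, norm_div]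
    ring
  have key := mq a hρ0 hρ e (B := B) I S G hinj hmem hS hG' hS0 hS1 (by
    intro j hj
    simp only [hG]
    rw [Finset.sum_eq_single_of_mem j hj]
    · rw [dslope_same]
      simp only [hb]
      rw [div_mul_cancel₀ _ (hS1 j hj), sub_self]
    · intro i hi hij
      have hne' : e j ≠ e i := fun h => hij (hinj (Finset.mem_coe.2 hi) (Finset.mem_coe.2 hj) h.symm)
      rw [hds i hi _ hne', hS0 j hj, zero_div, mul_zero]) hne (by
    intro z hz
    have hze : ∀ i ∈ I, z ≠ e i := by
      rintro i hi rfl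
      have := hmem i hi
      rw [mem_sphere] at hz
      rw [mem_ball] at this
      linarith
    refine le_trans ?_ (hsph z hz)
    refine (norm_sub_le _ _).trans ?_
    linarith [hsum z hze]) w hw
  have h1 : g w = G w + ∑ i ∈ I, b i * dslope S (e i) w := by simp only [hG]; ring
  rw [h1]
  refine (norm_add_le _ _).trans ?_
  have := hsum w hwe
  linarith

end

end Pool.Agent.J4.H62.NR
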