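import Mathlib

set_option autoImplicit false

/-! The series for the comparison function. -/

namespace Pool.Agent.J4.H62.NR

open Filter Topology

noncomputable section

/-- partial sums of the Mittag-Leffler series of the cotangent -/
lemma cot_lim {s : ℝ} (h0 : 0 < s) (h1 : s < Real.pi) :
    Tendsto (fun n : ℕ => ∑ k ∈ Finset.range n, 2 * s ^ 2 / ((Real.pi * (k + 1)) ^ 2 - s ^ 2)) atTop
      (𝓝 (1 - s * (Real.cos s / Real.sin s))) := by
  have hpi := Real.pi_pos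
  set x : ℝ := s / Real.pi with hx
  have hx0 : 0 < x := by positivity
  have hx1 : x < 1 := by rw [hx, div_lt_one hpi]; exact h1
  have hsx : s = Real.pi * x := by rw [hx]; field_simp
  have hmem : (x : ℂ) ∈ Complex.integerComplement := by
    rw [Complex.mem_integerComplement_iff]
    rintro ⟨m, hm⟩
    have h2 : (m : ℝ) = x := by exact_mod_cast hm
    have h3 : (0 : ℝ) < m := by rw [h2]; exact hx0
    have h4 : (m : ℝ) < 1 := by rw [h2]; exact hx1
    have h5 : 0 < m := by exact_mod_cast h3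
    have h6 : m < 1 := by exact_mod_cast h4
    omega
  have h := tendsto_logDeriv_euler_cot_sub hmem
  have h2 := (Complex.continuous_re.tendsto _).comp (h.const_mul (-(x : ℂ)))
  have e1 : ((-(x : ℂ)) * (↑Real.pi * Complex.cot (↑Real.pi * ↑x) - 1 / ↑x)).re =
      1 - s * (Real.cos s / Real.sin s) := by
    have hc : Complex.cot (↑Real.pi * ↑x) = ((Real.cos s / Real.sin s : ℝ) : ℂ) := by
      rw [Complex.cot, ← Complex.ofReal_mul, ← hsx, ← Complex.ofReal_cos, ← Complex.ofReal_sin,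
        ← Complex.ofReal_div]
    rw [hc]
    have : (-(x : ℂ)) * (↑Real.pi * ((Real.cos s / Real.sin s : ℝ) : ℂ) - 1 / ↑x) =
        ((-x * (Real.pi * (Real.cos s / Real.sin s) - 1 / x) : ℝ) : ℂ) := by push_cast; ring
    rw [this, Complex.ofReal_re, hsx]
    have hxne : x ≠ 0 := hx0.ne'
    field_simp
    ring
  rw [e1] at h2
  refine h2.congr fun n => ?_
  rw [Function.comp_apply, Finset.mul_sum, Complex.re_sum]
  refine Finset.sum_congr rfl fun k _ => ?_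
  have hk : (0:ℝ) ≤ k := Nat.cast_nonneg k
  have e2 : -(x : ℂ) * cotTerm (x : ℂ) k =
      ((-x * (1 / (x - (k + 1)) + 1 / (x + (k + 1))) : ℝ) : ℂ) := by
    unfold cotTerm
    push_cast
    ring
  rw [e2, Complex.ofReal_re, hsx]
  have h5 : x - (k + 1) ≠ 0 := by intro h; linarith
  have h6 : x + (k + 1) ≠ 0 := by positivity
  have h7 : (Real.pi * ((k:ℝ) + 1)) ^ 2 - (Real.pi * x) ^ 2 ≠ 0 := by
    have : (Real.pi * ((k:ℝ) + 1)) ^ 2 - (Real.pi * x) ^ 2 = -(Real.pi ^ 2 * ((x - (k + 1)) * (x + (k + 1)))) := by ring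
    rw [this]
    exact neg_ne_zero.2 (mul_ne_zero (by positivity) (mul_ne_zero h5 h6))
  rw [eq_div_iff h7]
  field_simp
  ring

/-- the terms of the comparison series -/
def Fk (s : ℝ) (k : ℕ) : ℝ :=
  2 * (Real.pi * (k + 1)) ^ 2 / (((Real.pi * (k + 1)) ^ 2 - Real.pi ^ 2 / 4) * ((Real.pi * (k + 1)) ^ 2 - s ^ 2))

lemma node_ge (k : ℕ) : Real.pi ^ 2 ≤ (Real.pi * ((k:ℝ) + 1)) ^ 2 := by
  have hk : (0:ℝ) ≤ k := Nat.cast_nonneg k
  have hpi := Real.pi_pos
  rw [mul_pow]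
  nlinarith [sq_nonneg Real.pi, sq_nonneg (k:ℝ)]

lemma Fk_nonneg {s : ℝ} (h0 : 0 ≤ s) (h1 : s < Real.pi) (k : ℕ) : 0 ≤ Fk s k := by
  unfold Fk
  have h2 := node_ge k
  have hpi := Real.pi_pos
  have h3 : s ^ 2 < Real.pi ^ 2 := by nlinarith
  have h4 : 0 ≤ (Real.pi * ((k:ℝ) + 1)) ^ 2 - s ^ 2 := by linarith
  have h5 : 0 ≤ (Real.pi * ((k:ℝ) + 1)) ^ 2 - Real.pi ^ 2 / 4 := by nlinarith
  positivity

/-- the comparison series is bounded by the comparison function -/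
lemma Fk_sum {s : ℝ} (h0 : 0 < s) (h1 : s < Real.pi) (n : ℕ) :
    |s ^ 2 - Real.pi ^ 2 / 4| * (|Real.sin s| / s) * ∑ k ∈ Finset.range n, Fk s k ≤ |Real.cos s| := by
  have hpi := Real.pi_pos
  by_cases hs : s = Real.pi / 2
  · have : s ^ 2 - Real.pi ^ 2 / 4 = 0 := by rw [hs]; ring
    rw [this, abs_zero, zero_mul, zero_mul]
    exact abs_nonneg _
  have hne : Real.pi ^ 2 / 4 - s ^ 2 ≠ 0 := by
    intro h
    have h2 : (Real.pi / 2 - s) * (Real.pi / 2 + s) = 0 := by linarith [h, (by ring : (Real.pi / 2 - s) * (Real.pi / 2 + s) = Real.pi ^ 2 / 4 - s ^ 2)]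
    rcases mul_eq_zero.1 h2 with h3 | h3
    · exact hs (by linarith)
    · linarith
  have hsin : 0 < Real.sin s := Real.sin_pos_of_pos_of_lt_pi h0 h1
  have l1 := cot_lim h0 h1
  have l2 := cot_lim (s := Real.pi / 2) (by positivity) (by linarith)
  rw [Real.cos_pi_div_two, zero_div, mul_zero, sub_zero] at l2
  have l3 := (l2.sub l1).const_mul (1 / (Real.pi ^ 2 / 4 - s ^ 2))
  have e1 : ∀ n : ℕ, 1 / (Real.pi ^ 2 / 4 - s ^ 2) *
      (∑ k ∈ Finset.range n, 2 * (Real.pi / 2) ^ 2 / ((Real.pi * ((k:ℝ) + 1)) ^ 2 - (Real.pi / 2) ^ 2) -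
       ∑ k ∈ Finset.range n, 2 * s ^ 2 / ((Real.pi * ((k:ℝ) + 1)) ^ 2 - s ^ 2)) =
      ∑ k ∈ Finset.range n, Fk s k := by
    intro n
    rw [← Finset.sum_sub_distrib, Finset.mul_sum]
    refine Finset.sum_congr rfl fun k _ => ?_
    have h2 := node_ge k
    have h3 : s ^ 2 < Real.pi ^ 2 := by nlinarith
    have h4 : (Real.pi * ((k:ℝ) + 1)) ^ 2 - s ^ 2 ≠ 0 := by
      have : 0 < (Real.pi * ((k:ℝ) + 1)) ^ 2 - s ^ 2 := by linarith
      exact this.ne'
    have h5 : (Real.pi * ((k:ℝ) + 1)) ^ 2 - Real.pi ^ 2 / 4 ≠ 0 := by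
      have : 0 < (Real.pi * ((k:ℝ) + 1)) ^ 2 - Real.pi ^ 2 / 4 := by nlinarith
      exact this.ne'
    unfold Fk
    have e2 : (Real.pi / 2) ^ 2 = Real.pi ^ 2 / 4 := by ring
    rw [e2]
    clear l1 l2 l3 e2
    generalize (Real.pi * ((k:ℝ) + 1)) ^ 2 = N at *
    generalize Real.pi ^ 2 / 4 = Q at *
    field_simp
    ring
  have l4 : Tendsto (fun n : ℕ => ∑ k ∈ Finset.range n, Fk s k) atTop
      (𝓝 (s * (Real.cos s / Real.sin s) / (Real.pi ^ 2 / 4 - s ^ 2))) := by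
    refine Tendsto.congr e1 ?_
    convert l3 using 2
    ring
  have hmono : Monotone fun n : ℕ => ∑ k ∈ Finset.range n, Fk s k := by
    refine monotone_nat_of_le_succ fun n => ?_
    rw [Finset.sum_range_succ]
    linarith [Fk_nonneg h0.le h1 n]
  have h2 := hmono.ge_of_tendsto l4 n
  have h3 : 0 ≤ s * (Real.cos s / Real.sin s) / (Real.pi ^ 2 / 4 - s ^ 2) :=
    le_trans (Finset.sum_nonneg fun k _ => Fk_nonneg h0.le h1 k) h2
  have h4 : 0 ≤ |s ^ 2 - Real.pi ^ 2 / 4| * (|Real.sin s| / s) := by positivity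
  refine (mul_le_mul_of_nonneg_left h2 h4).trans (le_of_eq ?_)
  rw [← abs_of_nonneg h3]
  have e3 : |s ^ 2 - Real.pi ^ 2 / 4| * (|Real.sin s| / s) = |(Real.pi ^ 2 / 4 - s ^ 2) * (Real.sin s / s)| := by
    rw [abs_mul, abs_div, abs_of_pos h0, abs_sub_comm]
  rw [e3, ← abs_mul]
  congr 1
  have := hsin.ne'
  generalize Real.pi ^ 2 / 4 = Q at *
  field_simp

/-- the error made on the circle of radius `π (n + 1/2)` -/
lemma err_lim : Tendsto (fun n : ℕ => ∑ k ∈ Finset.range n, 1 / (((k:ℝ) + 1) * ((n:ℝ) - k))) atTop (𝓝 0) := by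
  have h1 : Tendsto (fun n : ℕ => 1 / ((n:ℝ) + 1)) atTop (𝓝 0) := tendsto_one_div_add_atTop_nhds_zero_nat
  have h2 := (h1.cesaro).const_mul 2
  rw [mul_zero] at h2
  have hle : ∀ n : ℕ, ∑ k ∈ Finset.range n, 1 / (((k:ℝ) + 1) * ((n:ℝ) - k)) ≤
      2 * ((n⁻¹ : ℝ) * ∑ k ∈ Finset.range n, 1 / ((k:ℝ) + 1)) := by
    intro n
    rcases Nat.eq_zero_or_pos n with rfl | hn
    · simp
    have hn0 : (0:ℝ) < n := by exact_mod_cast hn
    have e1 : ∑ k ∈ Finset.range n, 1 / (((k:ℝ) + 1) * ((n:ℝ) - k)) =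
        1 / ((n:ℝ) + 1) * (∑ k ∈ Finset.range n, 1 / ((k:ℝ) + 1) + ∑ k ∈ Finset.range n, 1 / ((n:ℝ) - k)) := by
      rw [← Finset.sum_add_distrib, Finset.mul_sum]
      refine Finset.sum_congr rfl fun k hk => ?_
      have hkn : (k:ℝ) < n := by exact_mod_cast Finset.mem_range.1 hk
      have h3 : (n:ℝ) - k ≠ 0 := by
        have : 0 < (n:ℝ) - k := by linarith
        exact this.ne'
      have h4 : ((k:ℝ) + 1) ≠ 0 := by positivity
      have h5 : ((n:ℝ) + 1) ≠ 0 := by positivity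
      field_simp
      ring
    have e2 : ∑ k ∈ Finset.range n, 1 / ((n:ℝ) - k) = ∑ k ∈ Finset.range n, 1 / ((k:ℝ) + 1) := by
      rw [← Finset.sum_range_reflect]
      refine Finset.sum_congr rfl fun k hk => ?_
      have hkn : k < n := Finset.mem_range.1 hk
      have : ((n - 1 - k : ℕ) : ℝ) = (n:ℝ) - 1 - k := by
        rw [Nat.cast_sub (by omega), Nat.cast_sub (by omega)]
        push_cast; ring
      rw [this]
      congr 1
      ring
    rw [e1, e2]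
    have hS : 0 ≤ ∑ k ∈ Finset.range n, 1 / ((k:ℝ) + 1) := Finset.sum_nonneg fun k _ => by positivity
    have h6 : 1 / ((n:ℝ) + 1) ≤ (n:ℝ)⁻¹ := by
      rw [one_div]
      exact inv_anti₀ hn0 (by linarith)
    calc 1 / ((n:ℝ) + 1) * (∑ k ∈ Finset.range n, 1 / ((k:ℝ) + 1) + ∑ k ∈ Finset.range n, 1 / ((k:ℝ) + 1)) ≤
        (n:ℝ)⁻¹ * (∑ k ∈ Finset.range n, 1 / ((k:ℝ) + 1) + ∑ k ∈ Finset.range n, 1 / ((k:ℝ) + 1)) :=
          mul_le_mul_of_nonneg_right h6 (by linarith)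
      _ = _ := by ring
  have hge : ∀ n : ℕ, 0 ≤ ∑ k ∈ Finset.range n, 1 / (((k:ℝ) + 1) * ((n:ℝ) - k)) := by
    intro n
    refine Finset.sum_nonneg fun k hk => ?_
    have hkn : (k:ℝ) < n := by exact_mod_cast Finset.mem_range.1 hk
    have : 0 < (n:ℝ) - k := by linarith
    positivity
  exact squeeze_zero hge hle h2

end

end Pool.Agent.J4.H62.NR
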