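import Pool.Agent.J4.H62.NR.Sph
import Pool.Agent.J4.H62.NR.Quot
import Pool.Agent.J4.H62.NR.Ser

set_option autoImplicit false

/-! The comparison theorem for functions of exponential type with two given zeros. -/

namespace Pool.Agent.J4.H62.NR

open Filter Topology Metric

noncomputable section

/-- the distance of the nodes from the centre -/
def rr (β : ℝ) (k : ℕ) : ℝ := Real.sqrt ((Real.pi * (k + 1)) ^ 2 - β)

/-- the nodes -/
def nd (c β : ℝ) (i : ℕ × Bool) : ℂ := ((c + (if i.2 then rr β i.1 else -rr β i.1) : ℝ) : ℂ)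

/-- the radius of the circle -/
def rho (n : ℕ) : ℝ := Real.pi * (n + 1 / 2)

lemma rr_sq {β : ℝ} (hβ : β < Real.pi ^ 2) (k : ℕ) : rr β k ^ 2 = (Real.pi * (k + 1)) ^ 2 - β := by
  unfold rr
  rw [Real.sq_sqrt]
  linarith [node_ge k]

lemma rr_pos {β : ℝ} (hβ : β < Real.pi ^ 2) (k : ℕ) : 0 < rr β k := by
  unfold rr
  rw [Real.sqrt_pos]
  linarith [node_ge k]

/-- the distance of the nodes from the circle -/
lemma rr_far {K β : ℝ} (hK : 0 < K) (hβ : β < Real.pi ^ 2) (hβK : |β| ≤ K) {n : ℕ} (hn : K ≤ n) {k : ℕ} (hk : k < n) :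
    ((n:ℝ) - k) / 2 ≤ rho n - rr β k := by
  have hpi := Real.pi_gt_three
  have hkn : (k:ℝ) + 1 ≤ n := by exact_mod_cast hk
  have hk0 : (0:ℝ) ≤ k := Nat.cast_nonneg k
  have h1 := rr_sq hβ k
  have h2 := rr_pos hβ k
  have h3 : -K ≤ β := (abs_le.1 hβK).1
  -- `r_k ≤ ρ - (n - k) / 2`
  have h4 : 0 ≤ rho n - ((n:ℝ) - k) / 2 := by
    unfold rho; nlinarith
  have h5 : rr β k ^ 2 ≤ (rho n - ((n:ℝ) - k) / 2) ^ 2 := by
    rw [h1]
    unfold rho
    set j : ℝ := (n:ℝ) - k - 1 with hj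
    have hj0 : 0 ≤ j := by rw [hj]; linarith
    have e1 : (n:ℝ) = j + (k + 1) := by rw [hj]; ring
    rw [e1] at hn ⊢
    set a : ℝ := (k:ℝ) + 1 with ha
    have ha1 : 1 ≤ a := by rw [ha]; linarith
    have e2 : (j + a - k) / 2 = (j + 1) / 2 := by rw [ha]; ring
    rw [e2]
    have e3 : Real.pi * (j + a + 1 / 2) - (j + 1) / 2 = Real.pi * a + ((Real.pi - 1 / 2) * j + (Real.pi / 2 - 1 / 2)) := by ring
    rw [e3]
    have h6 : 0 ≤ (Real.pi - 1 / 2) * j := by
      have : 0 < Real.pi - 1 / 2 := by linarith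
      positivity
    have h7 : 1 ≤ Real.pi / 2 - 1 / 2 := by linarith
    have h8 : (Real.pi * a) ^ 2 + 2 * (Real.pi * a) * ((Real.pi - 1 / 2) * j + 1) ≤
        (Real.pi * a + ((Real.pi - 1 / 2) * j + (Real.pi / 2 - 1 / 2))) ^ 2 := by
      have h9 : 0 ≤ Real.pi * a := by positivity
      nlinarith [sq_nonneg ((Real.pi - 1 / 2) * j + (Real.pi / 2 - 1 / 2))]
    have h10 : K ≤ 2 * (Real.pi * a) * ((Real.pi - 1 / 2) * j + 1) := by
      have h11 : 3 ≤ Real.pi * a := by nlinarith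
      have h12 : j + 1 ≤ (Real.pi - 1 / 2) * j + 1 := by nlinarith
      have h13 : 2 * (Real.pi * a) * (j + 1) ≤ 2 * (Real.pi * a) * ((Real.pi - 1 / 2) * j + 1) :=
        mul_le_mul_of_nonneg_left h12 (by positivity)
      have h14 : j + a ≤ 2 * (Real.pi * a) * (j + 1) := by
        have h15 : a ≤ Real.pi * a := by nlinarith
        nlinarith
      linarith
    linarith
  have h6 := abs_le_of_sq_le_sq' h5 h4
  linarith [h6.2]

/-- a lower bound for the nodes -/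
lemma rr_low {ε β : ℝ} (hε : 0 < ε) (hβ : β ≤ Real.pi ^ 2 - ε) (k : ℕ) :
    Real.sqrt (min ε 1) * (k + 1) ≤ rr β k := by
  have hpi := Real.pi_gt_three
  unfold rr
  apply Real.le_sqrt_of_sq_le
  have hk0 : (0:ℝ) ≤ k := Nat.cast_nonneg k
  rw [mul_pow, Real.sq_sqrt (by positivity)]
  have h1 : min ε 1 ≤ ε := min_le_left _ _
  have h2 : min ε 1 ≤ 1 := min_le_right _ _
  have h3 : (1:ℝ) ≤ (k + 1) ^ 2 := by nlinarith
  have e1 : (Real.pi * ((k:ℝ) + 1)) ^ 2 = Real.pi ^ 2 * (k + 1) ^ 2 := by ring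
  rw [e1]
  by_cases hb : 0 ≤ β
  · have h4 : β ≤ β * (k + 1) ^ 2 := le_mul_of_one_le_right hb h3
    have h5 : (β + min ε 1) * (k + 1) ^ 2 ≤ Real.pi ^ 2 * (k + 1) ^ 2 :=
      mul_le_mul_of_nonneg_right (by linarith) (by positivity)
    nlinarith
  · push Not at hb
    have h5 : min ε 1 * (k + 1) ^ 2 ≤ Real.pi ^ 2 * (k + 1) ^ 2 :=
      mul_le_mul_of_nonneg_right (by nlinarith) (by positivity)
    linarith

lemma nd_inj {c β : ℝ} (hβ : β < Real.pi ^ 2) : Function.Injective (nd c β) := by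
  rintro ⟨k, b⟩ ⟨k', b'⟩ h
  unfold nd at h
  have h1 := Complex.ofReal_injective h
  simp only at h1
  have hp := rr_pos hβ k
  have hp' := rr_pos hβ k'
  have hb : b = b' := by
    cases b <;> cases b' <;> simp at h1 ⊢ <;> linarith
  subst hb
  have h2 : rr β k = rr β k' := by
    cases b <;> simp at h1 <;> linarith
  have h3 : (Real.pi * ((k:ℝ) + 1)) ^ 2 = (Real.pi * ((k':ℝ) + 1)) ^ 2 := by
    have e1 := rr_sq hβ k
    have e2 := rr_sq hβ k'
    rw [h2] at e1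
    linarith
  have hpi := Real.pi_pos
  have h4 : Real.pi * ((k:ℝ) + 1) = Real.pi * ((k':ℝ) + 1) :=
    (sq_eq_sq₀ (by positivity) (by positivity)).1 h3
  have h5 := mul_left_cancel₀ hpi.ne' h4
  have h6 : (k:ℝ) = k' := by linarith
  have h7 : k = k' := by exact_mod_cast h6
  rw [h7]

/-- the interpolating function -/
def Sf (c β : ℝ) (z : ℂ) : ℂ := Sn ((z - c) ^ 2 + β)

lemma Sf_diff (c β : ℝ) : Differentiable ℂ (Sf c β) := by
  unfold Sf
  exact Sn_diff.comp (by fun_prop)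

lemma nd_sub (c β : ℝ) (hβ : β < Real.pi ^ 2) (i : ℕ × Bool) :
    (nd c β i - c) ^ 2 = ((rr β i.1 ^ 2 : ℝ) : ℂ) ∧ ‖nd c β i - c‖ = rr β i.1 := by
  have hp := rr_pos hβ i.1
  have e1 : nd c β i - c = ((if i.2 then rr β i.1 else -rr β i.1 : ℝ) : ℂ) := by
    unfold nd; push_cast; ring
  rw [e1]
  constructor
  · rw [← Complex.ofReal_pow]
    congr 1
    split_ifs <;> ring
  · rw [Complex.norm_real, Real.norm_eq_abs]
    split_ifs
    · exact abs_of_pos hp
    · rw [abs_neg]; exact abs_of_pos hp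

lemma nd_sq {c β : ℝ} (hβ : β < Real.pi ^ 2) (i : ℕ × Bool) :
    (nd c β i - c) ^ 2 + β = ((Real.pi * (i.1 + 1) : ℝ) : ℂ) ^ 2 := by
  rw [(nd_sub c β hβ i).1, rr_sq hβ]
  push_cast
  ring

lemma Sf_nd {c β : ℝ} (hβ : β < Real.pi ^ 2) (i : ℕ × Bool) : Sf c β (nd c β i) = 0 ∧
    ‖deriv (Sf c β) (nd c β i)‖ = rr β i.1 / (Real.pi * (i.1 + 1)) ^ 2 := by
  obtain ⟨h1, h2⟩ := Sn_zero_at i.1
  have hpi := Real.pi_pos
  constructor
  · unfold Sf
    rw [nd_sq hβ]
    exact h1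
  · have hd : HasDerivAt (Sf c β) (deriv Sn ((nd c β i - c) ^ 2 + β) * (2 * (nd c β i - c))) (nd c β i) := by
      have h3 : HasDerivAt (fun z : ℂ => (z - c) ^ 2 + β) (2 * (nd c β i - c)) (nd c β i) := by
        have h4 := (((hasDerivAt_id (nd c β i)).sub_const (c : ℂ)).pow 2).add_const (β : ℂ)
        simpa using h4
      exact HasDerivAt.comp (h := fun z : ℂ => (z - c) ^ 2 + β) (h₂ := Sn) _ (Sn_diff _).hasDerivAt h3
    rw [hd.deriv, nd_sq hβ, norm_mul, norm_mul, (nd_sub c β hβ i).2, Complex.norm_ofNat]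
    have h5 := congrArg norm h2
    rw [norm_mul, norm_mul, norm_pow, norm_pow, norm_neg, norm_one, one_pow, Complex.norm_ofNat,
      Complex.norm_real, Real.norm_eq_abs, abs_of_pos (by positivity)] at h5
    rw [eq_div_iff (by positivity)]
    linear_combination rr β i.1 * h5

lemma Sf_ne {c β : ℝ} {K : ℝ} (hβ : β < Real.pi ^ 2) (hβK : |β| ≤ K) {n : ℕ} (hn : K ≤ n) {z : ℂ}
    (hz : ‖z - c‖ ≤ rho n) (hne : ∀ i ∈ Finset.range n ×ˢ (Finset.univ : Finset Bool), z ≠ nd c β i) :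
    Sf c β z ≠ 0 := by
  intro h0
  have hpi := Real.pi_gt_three
  obtain ⟨k, hk⟩ := Sn_eq_zero h0
  have h1 : (z - c) ^ 2 = ((rr β k ^ 2 : ℝ) : ℂ) := by
    rw [rr_sq hβ]
    push_cast at hk ⊢
    linear_combination hk
  have h2 : (z - c - rr β k) * (z - c + rr β k) = 0 := by
    push_cast at h1
    linear_combination h1
  have h3 : ‖z - c‖ = rr β k := by
    have h4 := congrArg norm h1
    rw [norm_pow, Complex.norm_real, Real.norm_eq_abs, abs_of_nonneg (sq_nonneg _)] at h4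
    exact (sq_eq_sq₀ (norm_nonneg _) (rr_pos hβ k).le).1 h4
  have hkn : k < n := by
    by_contra hcon
    push Not at hcon
    have h5 : (n:ℝ) ≤ k := by exact_mod_cast hcon
    have h6 := rr_sq hβ k
    rw [← h3] at h6
    have h7 : ‖z - c‖ ^ 2 ≤ rho n ^ 2 := pow_le_pow_left₀ (norm_nonneg _) hz 2
    have h8 : β ≤ K := (abs_le.1 hβK).2
    unfold rho at h7
    have h9 : (Real.pi * ((n:ℝ) + 1)) ^ 2 ≤ (Real.pi * ((k:ℝ) + 1)) ^ 2 := by gcongr
    have hn0 : (0:ℝ) ≤ n := Nat.cast_nonneg n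
    have h10 : (Real.pi * ((n:ℝ) + 1)) ^ 2 - (Real.pi * ((n:ℝ) + 1 / 2)) ^ 2 = Real.pi ^ 2 * (n + 3 / 4) := by ring
    have h11 : 1 * ((n:ℝ) + 3 / 4) ≤ Real.pi ^ 2 * (n + 3 / 4) :=
      mul_le_mul_of_nonneg_right (by nlinarith) (by linarith)
    linarith
  rcases mul_eq_zero.1 h2 with h | h
  · refine hne (k, true) (by simp [hkn]) ?_
    unfold nd
    simp only [if_true]
    push_cast
    linear_combination h
  · refine hne (k, false) (by simp [hkn]) ?_
    unfold nd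
    simp only [Bool.false_eq_true, if_false]
    push_cast
    linear_combination h

end

end Pool.Agent.J4.H62.NR
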