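import Pool.Agent.J4.H62.NR.Main

set_option autoImplicit false

/-! The comparison theorem and the theorem on local records. -/

namespace Pool.Agent.J4.H62.NR

open Filter Topology Complex Metric

noncomputable section

/-- the value of the comparison function near `1` -/
lemma cos_near {v e : ℝ} (he0 : 0 ≤ e) (he1 : e ≤ 1) (hv : 1 - e / 10 ≤ v) (hv1 : v ≤ 1) :
    1 - e ≤ |Real.cos (Real.pi * Real.sqrt v)| := by
  have hpi := Real.pi_gt_three
  have hpi4 := Real.pi_lt_d2
  have h1 : 1 - e / 10 ≤ Real.sqrt v := by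
    apply Real.le_sqrt_of_sq_le
    nlinarith
  have h2 : Real.sqrt v ≤ 1 := Real.sqrt_le_one.2 hv1 |> fun h => h
  set h := Real.pi * (1 - Real.sqrt v) with hh
  have e1 : Real.pi * Real.sqrt v = Real.pi - h := by rw [hh]; ring
  rw [e1, Real.cos_pi_sub, abs_neg]
  have h3 := Real.one_sub_sq_div_two_le_cos (x := h)
  have h4 : 0 ≤ h := by
    rw [hh]; have : 0 ≤ 1 - Real.sqrt v := by linarith
    positivity
  have h5 : h ≤ 0.315 * e := by
    rw [hh]; nlinarith
  have h6 : h ^ 2 / 2 ≤ e := by nlinarith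
  exact le_trans (by linarith) (le_abs_self _)

/-- the value of the comparison function away from the ends -/
lemma cos_far {v e : ℝ} (he0 : 0 < e) (he1 : e ≤ 1) (hv0 : e ≤ v) (hv : v ≤ 1 - e) :
    |Real.cos (Real.pi * Real.sqrt v)| ≤ Real.cos (Real.pi * (e / 2)) := by
  have hpi := Real.pi_gt_three
  have h1 : e / 2 ≤ Real.sqrt v := by
    apply Real.le_sqrt_of_sq_le
    nlinarith
  have h2 : Real.sqrt v ≤ 1 - e / 2 := by
    apply Real.sqrt_le_iff.2
    constructor
    · linarith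
    · nlinarith
  rw [abs_le]
  constructor
  · have h3 : Real.cos (Real.pi * (1 - e / 2)) ≤ Real.cos (Real.pi * Real.sqrt v) := by
      apply Real.cos_le_cos_of_nonneg_of_le_pi
      · positivity
      · nlinarith
      · gcongr
    have e1 : Real.pi * (1 - e / 2) = Real.pi - Real.pi * (e / 2) := by ring
    rw [e1, Real.cos_pi_sub] at h3
    exact h3
  · apply Real.cos_le_cos_of_nonneg_of_le_pi
    · positivity
    · nlinarith
    · gcongr

lemma cos_lt_one {e : ℝ} (he0 : 0 < e) (he1 : e ≤ 1) : Real.cos (Real.pi * (e / 2)) < 1 := by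
  have hpi := Real.pi_pos
  have h := Real.cos_lt_cos_of_nonneg_of_le_pi (x := 0) (y := Real.pi * (e / 2)) le_rfl (by nlinarith) (by positivity)
  rwa [Real.cos_zero] at h

/-- **the comparison theorem** for zeta -/
theorem main {K ε : ℝ} (hK : 1 ≤ K) (hε : 0 < ε) : ∃ A T0 : ℝ, 1 ≤ A ∧ 1 ≤ T0 ∧ ∀ t : ℝ, T0 ≤ t →
    0 < gap t ∧ ∀ M : ℝ,
    (∀ u : ℝ, |u - t| ≤ A → ‖riemannZeta (1 / 2 + I * u)‖ ≤ M) → 0 < M ∧
    (∀ s : ℂ, riemannZeta s = 0 → 0 < s.re → s.re < 1 → (s.re ≠ 1 / 2 ∨ deriv riemannZeta s = 0) →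
      ‖s - (1 / 2 + I * t)‖ ≤ Real.sqrt 3 / 2 * gap t →
      ‖riemannZeta (1 / 2 + I * t)‖ ≤
        (|Real.cos (Real.pi * Real.sqrt ((‖s - (1 / 2 + I * t)‖ / gap t) ^ 2 + 1 / 4))| + ε) * M) ∧
    (∀ x y : ℝ, x ≠ y → riemannZeta (1 / 2 + I * x) = 0 → riemannZeta (1 / 2 + I * y) = 0 →
      |x - t| ≤ K * gap t → |y - t| ≤ K * gap t → (x - t) * (y - t) ≤ 3 / 4 * gap t ^ 2 →
      ‖riemannZeta (1 / 2 + I * t)‖ ≤
        (|Real.cos (Real.pi * Real.sqrt ((x - t) * (y - t) / gap t ^ 2 + 1 / 4))| + ε) * M) := by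
  have hpi := Real.pi_gt_three
  have hpi4 := Real.pi_lt_d2
  have hpi9 : 9 ≤ Real.pi ^ 2 := by nlinarith
  set e := min ε 1 with he
  have he0 : 0 < e := by positivity
  have he1 : e ≤ 1 := min_le_right _ _
  have heε : e ≤ ε := min_le_left _ _
  obtain ⟨A, T0, hA, hT0, h2⟩ := two (K := 4 * K) (ε := e / 2) (by linarith) (by positivity)
  refine ⟨A, max T0 1000, hA, hT0.trans (le_max_left _ _), fun t ht => ?_⟩
  have htT0 : T0 ≤ t := (le_max_left _ _).trans ht
  have ht1000 : 1000 ≤ t := (le_max_right _ _).trans ht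
  have hL : 1 < Real.log (t / (2 * Real.pi)) := by
    rw [Real.lt_log_iff_exp_lt (by positivity), lt_div_iff₀ (by positivity)]
    nlinarith [Real.exp_one_lt_d9]
  have hL0 : 0 < Real.log (t / (2 * Real.pi)) := by linarith
  have hg : 0 < gap t := by unfold gap; positivity
  have hg7 : gap t ≤ 7 := by
    unfold gap
    rw [div_le_iff₀ hL0]
    nlinarith
  refine ⟨hg, fun M hM => ?_⟩
  obtain ⟨hM0, hmain⟩ := h2 t htT0 M hM
  have hMt : ‖riemannZeta (1 / 2 + I * t)‖ ≤ M := hM t (by simp; linarith)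
  refine ⟨hM0, ?_, ?_⟩
  · intro s hs hs0 hs1 hcase hdist
    set D := ‖s - (1 / 2 + I * t)‖ / gap t with hD
    have hD0 : 0 ≤ D := by positivity
    have hD1 : D ≤ Real.sqrt 3 / 2 := by rw [hD, div_le_iff₀ hg]; exact hdist
    have h3 : Real.sqrt 3 ^ 2 = 3 := Real.sq_sqrt (by norm_num)
    have hD2 : D ^ 2 ≤ 3 / 4 := by nlinarith [Real.sqrt_nonneg 3]
    by_cases hnear : 1 - e / 10 ≤ D ^ 2 + 1 / 4
    · have h4 := cos_near he0.le he1 hnear (by linarith)
      have h5 : 1 ≤ |Real.cos (Real.pi * Real.sqrt (D ^ 2 + 1 / 4))| + ε := by linarith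
      calc ‖riemannZeta (1 / 2 + I * t)‖ ≤ 1 * M := by rw [one_mul]; exact hMt
        _ ≤ _ := mul_le_mul_of_nonneg_right h5 hM0.le
    push Not at hnear
    have hnorm := zc_norm hL0 s
    rw [← hD] at hnorm
    obtain ⟨hre, him⟩ := zc_parts (t := t) s
    set z1 := zc t s with hz1
    have hnsq : z1.re ^ 2 + z1.im ^ 2 = Real.pi ^ 2 * D ^ 2 := by
      have := Complex.sq_norm z1
      rw [Complex.normSq_apply, hnorm] at this
      nlinarith
    have hz1K : ‖z1‖ ≤ 4 * K := by
      rw [hnorm]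
      have : D ≤ 1 := by nlinarith
      nlinarith
    have hDs : Real.pi ^ 2 * D ^ 2 ≤ 3 / 4 * Real.pi ^ 2 - e / 2 := by
      have h4 : Real.pi ^ 2 * D ^ 2 ≤ Real.pi ^ 2 * (3 / 4 - e / 10) :=
        mul_le_mul_of_nonneg_left (by linarith) (by positivity)
      have h5 : 9 * (e / 10) ≤ Real.pi ^ 2 * (e / 10) := mul_le_mul_of_nonneg_right (by nlinarith) (by positivity)
      nlinarith
    have hz1f : fz t z1 = 0 := fz_zc hL0 hs
    have hfin : ∀ (c δ : ℝ), c ^ 2 - δ = Real.pi ^ 2 * D ^ 2 → ‖riemannZeta (1 / 2 + I * t)‖ ≤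
        (|Real.cos (Real.sqrt (c ^ 2 - δ + Real.pi ^ 2 / 4))| + e / 2) * M → ‖riemannZeta (1 / 2 + I * t)‖ ≤
        (|Real.cos (Real.pi * Real.sqrt (D ^ 2 + 1 / 4))| + ε) * M := by
      intro c δ hcd hb
      have e1 : Real.sqrt (c ^ 2 - δ + Real.pi ^ 2 / 4) = Real.pi * Real.sqrt (D ^ 2 + 1 / 4) := by
        have : c ^ 2 - δ + Real.pi ^ 2 / 4 = Real.pi ^ 2 * (D ^ 2 + 1 / 4) := by rw [hcd]; ring
        rw [this, Real.sqrt_mul (by positivity), Real.sqrt_sq (by positivity)]
      rw [e1] at hb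
      refine hb.trans (mul_le_mul_of_nonneg_right ?_ hM0.le)
      linarith
    have him_pos : 1 ≤ s.im := by
      have h4 := Complex.abs_im_le_norm (s - (1 / 2 + I * t))
      have h5 : (s - (1 / 2 + I * t)).im = s.im - t := by simp
      rw [h5] at h4
      have h6 : Real.sqrt 3 ≤ 2 := by
        rw [Real.sqrt_le_left (by norm_num)]; norm_num
      have h7 := (abs_le.1 (h4.trans hdist)).1
      nlinarith
    by_cases hline : s.re = 1 / 2
    · -- a multiple zero on the line
      have hd : deriv riemannZeta s = 0 := hcase.resolve_left (fun h => h hline)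
      have him0 : z1.im = 0 := by rw [him, hline]; ring
      have hreal : z1 = (z1.re : ℂ) := by
        apply Complex.ext
        · simp
        · simp [him0]
      have hs1' : s ≠ 1 := by
        rintro rfl
        norm_num at hline
      refine hfin z1.re 0 (by rw [sub_zero]; rw [him0] at hnsq; linarith) ?_
      refine hmain z1 z1 z1.re 0 hz1f hz1f (fun _ => fz_deriv hL0 hs1' hs hd) hz1K hz1K (by
        rw [← hreal]; ring) (by rw [← hreal]; push_cast; ring) (by nlinarith) (by
        rw [sub_zero]; rw [him0] at hnsq; nlinarith)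
    · -- a zero off the line
      have hsymm := H370.good_zeta.symm s hs0 hs1 him_pos
      have hs' : riemannZeta (1 - (starRingEnd ℂ) s) = 0 := by
        have hne1 : s ≠ 1 := by rintro rfl; simp at hs1
        have ha : AnalyticAt ℂ riemannZeta s := H370.good_zeta.an s (by linarith)
        have ha' : AnalyticAt ℂ riemannZeta (1 - (starRingEnd ℂ) s) :=
          H370.good_zeta.an _ (by simp; linarith)
        rw [← ha'.analyticOrderAt_ne_zero, hsymm, ha.analyticOrderAt_ne_zero]
        exact hs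
      have hz2f : fz t (zc t (1 - (starRingEnd ℂ) s)) = 0 := fz_zc hL0 hs'
      have hz2 : zc t (1 - (starRingEnd ℂ) s) = (starRingEnd ℂ) z1 := by
        obtain ⟨a1, a2⟩ := zc_parts (t := t) (1 - (starRingEnd ℂ) s)
        apply Complex.ext
        · rw [a1, Complex.conj_re, hre]; simp
        · rw [a2, Complex.conj_im, him]; simp; ring
      rw [hz2] at hz2f
      have him_ne : z1.im ≠ 0 := by
        rw [him]
        intro h
        rw [neg_eq_zero, mul_eq_zero] at h
        rcases h with h | h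
        · have : 0 < Real.pi / gap t := by positivity
          linarith
        · exact hline (by linarith)
      refine hfin z1.re (-(z1.im ^ 2)) (by rw [sub_neg_eq_add]; exact hnsq) ?_
      refine hmain z1 ((starRingEnd ℂ) z1) z1.re (-(z1.im ^ 2)) hz1f hz2f (fun h => ?_) hz1K (by
        rw [RCLike.norm_conj]; exact hz1K) (by
        rw [Complex.add_conj]; push_cast; ring) (by
        rw [Complex.mul_conj, Complex.normSq_apply]; push_cast; ring) (by
        have : 0 ≤ z1.re ^ 2 := sq_nonneg _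
        linarith) (by rw [sub_neg_eq_add, hnsq]; linarith)
      exfalso
      have := congrArg Complex.im h
      rw [Complex.conj_im] at this
      exact him_ne (by linarith)
  · intro x y hxy hx hy hxK hyK hP
    set P := (x - t) * (y - t) / gap t ^ 2 with hPd
    have hP1 : P ≤ 3 / 4 := by rw [hPd, div_le_iff₀ (by positivity)]; exact hP
    rcases hP1.eq_or_lt with hPe | hPl
    · have h4 : |Real.cos (Real.pi * Real.sqrt (P + 1 / 4))| = 1 := by
        rw [hPe]
        have : (3 / 4 + 1 / 4 : ℝ) = 1 := by norm_num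
        rw [this, Real.sqrt_one, mul_one, Real.cos_pi, abs_neg, abs_one]
      rw [h4]
      nlinarith
    obtain ⟨hre1, him1⟩ := zc_parts (t := t) (1 / 2 + I * x)
    obtain ⟨hre2, him2⟩ := zc_parts (t := t) (1 / 2 + I * y)
    have e1 : zc t (1 / 2 + I * x) = ((Real.pi / gap t * (x - t) : ℝ) : ℂ) := by
      apply Complex.ext
      · rw [hre1]; simp
      · rw [him1]; simp
    have e2 : zc t (1 / 2 + I * y) = ((Real.pi / gap t * (y - t) : ℝ) : ℂ) := by
      apply Complex.ext
      · rw [hre2]; simp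
      · rw [him2]; simp
    have hf1 := fz_zc hL0 hx
    have hf2 := fz_zc hL0 hy
    rw [e1] at hf1
    rw [e2] at hf2
    set a := Real.pi / gap t * (x - t) with ha
    set b := Real.pi / gap t * (y - t) with hb
    have hab : a * b = Real.pi ^ 2 * P := by
      rw [ha, hb, hPd]; field_simp
    have haK : |a| ≤ 4 * K := by
      rw [ha, abs_mul, abs_of_pos (by positivity)]
      calc Real.pi / gap t * |x - t| ≤ Real.pi / gap t * (K * gap t) :=
            mul_le_mul_of_nonneg_left hxK (by positivity)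
        _ = Real.pi * K := by field_simp
        _ ≤ 4 * K := by nlinarith
    have hbK : |b| ≤ 4 * K := by
      rw [hb, abs_mul, abs_of_pos (by positivity)]
      calc Real.pi / gap t * |y - t| ≤ Real.pi / gap t * (K * gap t) :=
            mul_le_mul_of_nonneg_left hyK (by positivity)
        _ = Real.pi * K := by field_simp
        _ ≤ 4 * K := by nlinarith
    have hne : a ≠ b := by
      intro h
      rw [ha, hb] at h
      have h0 : Real.pi / gap t ≠ 0 := by positivity
      have := mul_left_cancel₀ h0 h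
      exact hxy (by linarith)
    have key := hmain (a:ℂ) (b:ℂ) ((a + b) / 2) (((a - b) / 2) ^ 2) hf1 hf2 (fun h => by
      exact absurd (Complex.ofReal_injective h) hne) (by rw [Complex.norm_real]; exact haK) (by
      rw [Complex.norm_real]; exact hbK) (by push_cast; ring) (by push_cast; ring) (by
      have : 0 ≤ ((a - b) / 2) ^ 2 := sq_nonneg _
      linarith) (by
      have : ((a + b) / 2) ^ 2 - ((a - b) / 2) ^ 2 = a * b := by ring
      rw [this, hab]
      have h5 := mul_lt_mul_of_pos_left hPl (show 0 < Real.pi ^ 2 by positivity)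
      linarith)
    have e3 : ((a + b) / 2) ^ 2 - ((a - b) / 2) ^ 2 + Real.pi ^ 2 / 4 = Real.pi ^ 2 * (P + 1 / 4) := by
      have : ((a + b) / 2) ^ 2 - ((a - b) / 2) ^ 2 = a * b := by ring
      rw [this, hab]; ring
    rw [e3, Real.sqrt_mul (by positivity), Real.sqrt_sq (by positivity)] at key
    refine key.trans (mul_le_mul_of_nonneg_right ?_ hM0.le)
    linarith

/-- **local records** -/
theorem records {K ε : ℝ} (hK : 1 ≤ K) (hε : 0 < ε) : ∃ A T0 : ℝ, 1 ≤ A ∧ 1 ≤ T0 ∧ ∀ t : ℝ, T0 ≤ t →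
    (∀ u : ℝ, |u - t| ≤ A → ‖riemannZeta (1 / 2 + I * u)‖ ≤ ‖riemannZeta (1 / 2 + I * t)‖) →
    (∀ s : ℂ, riemannZeta s = 0 → 0 < s.re → s.re < 1 →
      ‖s - (1 / 2 + I * t)‖ ≤ (Real.sqrt 3 / 2 - ε) * gap t → s.re = 1 / 2 ∧ deriv riemannZeta s ≠ 0) ∧
    (∀ x y : ℝ, x ≠ y → riemannZeta (1 / 2 + I * x) = 0 → riemannZeta (1 / 2 + I * y) = 0 →
      |x - t| ≤ K * gap t → |y - t| ≤ K * gap t →
      (3 / 4 - ε) * gap t ^ 2 ≤ (x - t) * (y - t) ∨ (x - t) * (y - t) ≤ -((1 / 4 - ε) * gap t ^ 2)) := by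
  set e := min ε (1 / 2) with he
  have he0 : 0 < e := by positivity
  have he1 : e ≤ 1 / 2 := min_le_right _ _
  have heε : e ≤ ε := min_le_left _ _
  have hc := cos_lt_one (e := e / 2) (by positivity) (by linarith)
  set ε' := (1 - Real.cos (Real.pi * (e / 2 / 2))) / 2 with hε'
  have hε'0 : 0 < ε' := by rw [hε']; linarith
  obtain ⟨A, T0, hA, hT0, hm⟩ := main (K := K) (ε := ε') hK hε'0
  refine ⟨A, T0, hA, hT0, fun t ht hrec => ?_⟩
  obtain ⟨hg, hm'⟩ := hm t ht
  obtain ⟨hM0, ha, hb⟩ := hm' _ hrec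
  have hfar : ∀ v : ℝ, e / 2 ≤ v → v ≤ 1 - e / 2 → ¬ (‖riemannZeta (1 / 2 + I * t)‖ ≤
      (|Real.cos (Real.pi * Real.sqrt v)| + ε') * ‖riemannZeta (1 / 2 + I * t)‖) := by
    intro v h1 h2 h3
    have h4 := cos_far (e := e / 2) (by positivity) (by linarith) h1 h2
    have h5 : |Real.cos (Real.pi * Real.sqrt v)| + ε' < 1 := by
      rw [hε']; linarith
    nlinarith
  constructor
  · intro s hs hs0 hs1 hdist
    by_contra hcon
    have hcase : s.re ≠ 1 / 2 ∨ deriv riemannZeta s = 0 := by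
      by_cases h : s.re = 1 / 2
      · right
        by_contra h'
        exact hcon ⟨h, h'⟩
      · left; exact h
    have h3 : Real.sqrt 3 ^ 2 = 3 := Real.sq_sqrt (by norm_num)
    have h3' : 1 ≤ Real.sqrt 3 := by
      rw [Real.one_le_sqrt]; norm_num
    have h1 := ha s hs hs0 hs1 hcase (hdist.trans (by
      apply mul_le_mul_of_nonneg_right _ hg.le
      linarith))
    set D := ‖s - (1 / 2 + I * t)‖ / gap t with hD
    have hD0 : 0 ≤ D := by positivity
    have hD1 : D ≤ Real.sqrt 3 / 2 - e := by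
      rw [hD, div_le_iff₀ hg]
      refine hdist.trans (mul_le_mul_of_nonneg_right (by linarith) hg.le)
    refine hfar (D ^ 2 + 1 / 4) (by nlinarith) ?_ h1
    have h4 : D ^ 2 ≤ (Real.sqrt 3 / 2 - e) ^ 2 := pow_le_pow_left₀ hD0 hD1 2
    nlinarith
  · intro x y hxy hx hy hxK hyK
    by_contra hcon
    push Not at hcon
    obtain ⟨hc1, hc2⟩ := hcon
    set P := (x - t) * (y - t) / gap t ^ 2 with hP
    have hPe : (x - t) * (y - t) = P * gap t ^ 2 := by rw [hP]; field_simp
    have hg2 : 0 < gap t ^ 2 := by positivity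
    have h1 : P < 3 / 4 - ε := by
      rw [hPe] at hc1
      exact lt_of_mul_lt_mul_right hc1 hg2.le
    have h2 : -(1 / 4 - ε) < P := by
      rw [hPe] at hc2
      have : -(1 / 4 - ε) * gap t ^ 2 < P * gap t ^ 2 := by linarith
      exact lt_of_mul_lt_mul_right this hg2.le
    have h3 := hb x y hxy hx hy hxK hyK (by rw [hPe]; nlinarith)
    exact hfar (P + 1 / 4) (by linarith) (by linarith) h3

end

end Pool.Agent.J4.H62.NR
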