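import Pool.Agent.J4.H62.NR.Zeta
import Pool.Agent.J4.H62.NR.Cmp

set_option autoImplicit false

/-! The comparison theorem for zeta near two zeros. -/

namespace Pool.Agent.J4.H62.NR

open Filter Topology Complex Metric

noncomputable section

/-- the comparison theorem in normalised coordinates -/
theorem two {K ε : ℝ} (hK : 1 ≤ K) (hε : 0 < ε) : ∃ A T0 : ℝ, 1 ≤ A ∧ 1 ≤ T0 ∧ ∀ t : ℝ, T0 ≤ t → ∀ M : ℝ,
    (∀ u : ℝ, |u - t| ≤ A → ‖riemannZeta (1 / 2 + I * u)‖ ≤ M) → 0 < M ∧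
    ∀ (z1 z2 : ℂ) (c δ : ℝ), fz t z1 = 0 → fz t z2 = 0 → (z1 = z2 → deriv (fz t) z1 = 0) → ‖z1‖ ≤ K → ‖z2‖ ≤ K →
      z1 + z2 = 2 * c → z1 * z2 = (c:ℂ) ^ 2 - δ → -(3 / 4 * Real.pi ^ 2) + ε ≤ δ → c ^ 2 - δ < 3 / 4 * Real.pi ^ 2 →
      ‖riemannZeta (1 / 2 + I * t)‖ ≤ (|Real.cos (Real.sqrt (c ^ 2 - δ + Real.pi ^ 2 / 4))| + ε) * M := by
  have hpi := Real.pi_gt_three
  obtain ⟨n0, hn0⟩ := cmp (C0 := 8) (K := 2 * K ^ 2) (ε := ε) (by norm_num) (by positivity) hε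
  obtain ⟨n1, hn1⟩ := exists_nat_ge (2 * K)
  set n := max n0 n1 with hn
  have hnK : 2 * K ≤ n := hn1.trans (by exact_mod_cast le_max_right _ _)
  have hρ : 2 * K ≤ rho n := by
    unfold rho
    have : (0:ℝ) ≤ n := Nat.cast_nonneg n
    nlinarith
  obtain ⟨A, T0, hA, hT0, hb⟩ := fz_bound (rho n + 1 + K) (by linarith)
  refine ⟨A, T0, hA, hT0, fun t ht M hM => ?_⟩
  obtain ⟨hM0, h1, h2⟩ := hb t ht M hM
  refine ⟨hM0, ?_⟩
  intro z1 z2 c δ hz1 hz2 hdz hz1K hz2K hsum hprod hδ hw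
  have hcK : |c| ≤ K := by
    have h3 : ‖(2 * c : ℂ)‖ ≤ 2 * K := by
      rw [← hsum]
      refine (norm_add_le _ _).trans ?_
      linarith
    rw [norm_mul, Complex.norm_real, Complex.norm_ofNat, Real.norm_eq_abs] at h3
    linarith
  have hδK : |δ| ≤ 2 * K ^ 2 := by
    have e1 : (δ : ℂ) = (c:ℂ) ^ 2 - z1 * z2 := by rw [hprod]; ring
    have h3 : ‖(δ:ℂ)‖ ≤ |c| ^ 2 + K * K := by
      rw [e1]
      refine (norm_sub_le _ _).trans ?_
      rw [norm_pow, norm_mul, Complex.norm_real, Real.norm_eq_abs]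
      gcongr
    rw [Complex.norm_real, Real.norm_eq_abs] at h3
    have h4 : |c| ^ 2 ≤ K ^ 2 := pow_le_pow_left₀ (abs_nonneg _) hcK 2
    nlinarith
  have hball : ∀ z ∈ ball (c:ℂ) (rho n + 1), ‖z‖ ≤ rho n + 1 + K := by
    intro z hz
    rw [mem_ball, dist_eq_norm] at hz
    calc ‖z‖ = ‖(z - c) + c‖ := by congr 1; ring
      _ ≤ ‖z - c‖ + ‖(c:ℂ)‖ := norm_add_le _ _
      _ ≤ _ := by rw [Complex.norm_real, Real.norm_eq_abs]; linarith
  have hf : DifferentiableOn ℂ (fz t) (ball (c:ℂ) (rho n + 1)) := fun z hz =>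
    ((h1 z (hball z hz)).2).differentiableWithinAt
  have hmem : ∀ z : ℂ, ‖z‖ ≤ K → z ∈ ball (c:ℂ) (rho n + 1) := by
    intro z hz
    rw [mem_ball, dist_eq_norm]
    calc ‖z - c‖ ≤ ‖z‖ + ‖(c:ℂ)‖ := norm_sub_le _ _
      _ < _ := by rw [Complex.norm_real, Real.norm_eq_abs]; linarith
  have hn1' : ball (c:ℂ) (rho n + 1) ∈ 𝓝 z1 := isOpen_ball.mem_nhds (hmem z1 hz1K)
  have hn2' : ball (c:ℂ) (rho n + 1) ∈ 𝓝 z2 := isOpen_ball.mem_nhds (hmem z2 hz2K)
  have hf1 : DifferentiableOn ℂ (dslope (fz t) z1) (ball (c:ℂ) (rho n + 1)) :=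
    (Complex.differentiableOn_dslope hn1').2 hf
  have hf2 : DifferentiableOn ℂ (dslope (dslope (fz t) z1) z2) (ball (c:ℂ) (rho n + 1)) :=
    (Complex.differentiableOn_dslope hn2').2 hf1
  have e1 : ∀ z, fz t z = (z - z1) * dslope (fz t) z1 z := by
    intro z
    have := sub_smul_dslope (fz t) z1 z
    rw [hz1, sub_zero, smul_eq_mul] at this
    exact this.symm
  have h0 : dslope (fz t) z1 z2 = 0 := by
    by_cases h : z1 = z2
    · rw [← h, dslope_same]; exact hdz h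
    · have h3 := e1 z2
      rw [hz2] at h3
      exact (mul_eq_zero.1 h3.symm).resolve_left (sub_ne_zero.2 (Ne.symm h))
  have e2 : ∀ z, dslope (fz t) z1 z = (z - z2) * dslope (dslope (fz t) z1) z2 z := by
    intro z
    have := sub_smul_dslope (dslope (fz t) z1) z2 z
    rw [h0, sub_zero, smul_eq_mul] at this
    exact this.symm
  have e3 : ∀ z, ((z - c) ^ 2 - δ) * dslope (dslope (fz t) z1) z2 z = fz t z := by
    intro z
    rw [e1 z, e2 z]
    have : (z - (c:ℂ)) ^ 2 - δ = (z - z1) * (z - z2) := by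
      linear_combination z * hsum - hprod
    rw [this]
    ring
  have key := hn0 n (le_max_left _ _) c δ 0 M (dslope (dslope (fz t) z1) z2) hδK hδ hM0.le hf2
    (fun x hx => by
      rw [e3]
      refine h2 x ?_
      calc |x| = |(x - c) + c| := by congr 1; ring
        _ ≤ |x - c| + |c| := abs_add_le _ _
        _ ≤ _ := by linarith)
    (fun z hz => by
      rw [e3]
      refine (h1 z ?_).1
      calc ‖z‖ = ‖(z - c) + c‖ := by congr 1; ring
        _ ≤ ‖z - c‖ + ‖(c:ℂ)‖ := norm_add_le _ _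
        _ ≤ _ := by rw [Complex.norm_real, Real.norm_eq_abs]; linarith)
    (by rw [zero_sub, neg_sq]; exact hw)
  rw [e3, zero_sub, neg_sq] at key
  have e4 : fz t ((0:ℝ):ℂ) = riemannZeta (1 / 2 + I * t) := by
    unfold fz
    simp
  rw [e4] at key
  exact key

lemma fz_zero_iff (t : ℝ) (z : ℂ) : fz t z = 0 ↔ riemannZeta (1 / 2 + I * (t + 2 * z / Real.log (t / (2 * Real.pi)))) = 0 := by
  unfold fz
  rw [mul_eq_zero]
  exact ⟨fun h => h.resolve_left (Complex.exp_ne_zero _), Or.inr⟩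

/-- the mean spacing -/
def gap (t : ℝ) : ℝ := 2 * Real.pi / Real.log (t / (2 * Real.pi))

/-- the coordinate of a zero -/
def zc (t : ℝ) (s : ℂ) : ℂ := (Real.pi / gap t : ℝ) * (((s - 1 / 2) / I) - t)

lemma zc_back {t : ℝ} (ht : 0 < Real.log (t / (2 * Real.pi))) (s : ℂ) :
    (1 / 2 + I * (t + 2 * zc t s / Real.log (t / (2 * Real.pi)))) = s := by
  have hpi := Real.pi_pos
  set L := Real.log (t / (2 * Real.pi)) with hL
  have hL0 : (L : ℂ) ≠ 0 := by exact_mod_cast ht.ne'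
  have e1 : Real.pi / gap t = L / 2 := by
    unfold gap; rw [← hL]; field_simp
  unfold zc
  rw [e1]
  push_cast
  have : I ≠ 0 := Complex.I_ne_zero
  field_simp
  ring

lemma zc_norm {t : ℝ} (ht : 0 < Real.log (t / (2 * Real.pi))) (s : ℂ) :
    ‖zc t s‖ = Real.pi * (‖s - (1 / 2 + I * t)‖ / gap t) := by
  have hpi := Real.pi_pos
  have hg : 0 < gap t := by unfold gap; positivity
  unfold zc
  have e1 : (s - 1 / 2) / I - t = (s - (1 / 2 + I * t)) / I := by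
    field_simp
    ring
  rw [e1, norm_mul, norm_div, Complex.norm_I, div_one, Complex.norm_real, Real.norm_eq_abs,
    abs_of_pos (by positivity)]
  ring

lemma zc_parts {t : ℝ} (s : ℂ) : (zc t s).re = Real.pi / gap t * (s.im - t) ∧
    (zc t s).im = -(Real.pi / gap t * (s.re - 1 / 2)) := by
  have e1 : zc t s = ((Real.pi / gap t * (s.im - t) : ℝ) : ℂ) + ((-(Real.pi / gap t * (s.re - 1 / 2)) : ℝ) : ℂ) * I := by
    unfold zc
    have hs : s = s.re + s.im * I := (Complex.re_add_im s).symm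
    have e2 : (s - 1 / 2) / I = s.im - (s.re - 1 / 2) * I := by
      rw [div_eq_iff Complex.I_ne_zero]
      have : I ^ 2 = -1 := Complex.I_sq
      linear_combination hs + ((s.re:ℂ) - 1 / 2) * this
    rw [e2]
    push_cast
    ring
  rw [e1, ← Complex.mk_eq_add_mul_I]
  exact ⟨rfl, rfl⟩

lemma fz_zc {t : ℝ} (ht : 0 < Real.log (t / (2 * Real.pi))) {s : ℂ} (hs : riemannZeta s = 0) : fz t (zc t s) = 0 := by
  rw [fz_zero_iff, zc_back ht]
  exact hs

lemma fz_deriv {t : ℝ} (ht : 0 < Real.log (t / (2 * Real.pi))) {s : ℂ} (hs1 : s ≠ 1) (hs : riemannZeta s = 0)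
    (hs' : deriv riemannZeta s = 0) : deriv (fz t) (zc t s) = 0 := by
  set L := Real.log (t / (2 * Real.pi)) with hL
  have h1 : HasDerivAt (fun z : ℂ => (1 / 2 + I * (t + 2 * z / (L:ℂ)))) (I * (2 / (L:ℂ))) (zc t s) := by
    have h2 : HasDerivAt (fun z : ℂ => 2 * z / (L:ℂ)) (2 / (L:ℂ)) (zc t s) := by
      have := ((hasDerivAt_id (zc t s)).const_mul (2:ℂ)).div_const (L:ℂ)
      simpa using this
    exact ((h2.const_add (t:ℂ)).const_mul I).const_add (1 / 2 : ℂ)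
  have h2 : HasDerivAt riemannZeta 0 (1 / 2 + I * (t + 2 * zc t s / (L:ℂ))) := by
    rw [hL, zc_back ht]
    rw [← hs']
    exact (differentiableAt_riemannZeta hs1).hasDerivAt
  have h3 : HasDerivAt (fun z : ℂ => riemannZeta (1 / 2 + I * (t + 2 * z / (L:ℂ)))) (0 * (I * (2 / (L:ℂ)))) (zc t s) :=
    HasDerivAt.comp (h := fun z : ℂ => (1 / 2 + I * (t + 2 * z / (L:ℂ)))) (h₂ := riemannZeta) (zc t s) h2 h1
  have h4 : HasDerivAt (fun z : ℂ => cexp (I * z)) (cexp (I * zc t s) * I) (zc t s) := by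
    have h5 : HasDerivAt (fun z : ℂ => I * z) I (zc t s) := by
      simpa using (hasDerivAt_id (zc t s)).const_mul I
    exact h5.cexp
  have h5 := (h4.mul h3).deriv
  have h6 : riemannZeta (1 / 2 + I * (t + 2 * zc t s / (L:ℂ))) = 0 := by
    rw [hL, zc_back ht]; exact hs
  have h7 : deriv (fz t) (zc t s) = cexp (I * zc t s) * I * riemannZeta (1 / 2 + I * (t + 2 * zc t s / (L:ℂ))) +
      cexp (I * zc t s) * (0 * (I * (2 / (L:ℂ)))) := h5
  rw [h7, h6]
  ring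

end

end Pool.Agent.J4.H62.NR
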