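import Mathlib

set_option autoImplicit false

/-! The entire function `S` with `s S(s²) = sin s`. -/

namespace Pool.Agent.J4.H62.NR

open Complex Filter Topology

noncomputable section

/-- the entire function with `s S(s²) = sin s` -/
def Sn (w : ℂ) : ℂ := ∑' n : ℕ, (-1) ^ n * w ^ n / ((2 * n + 1).factorial : ℂ)

lemma term_le {r : ℝ} {w : ℂ} (hw : ‖w‖ ≤ r) (n : ℕ) :
    ‖(-1) ^ n * w ^ n / ((2 * n + 1).factorial : ℂ)‖ ≤ r ^ n / (n.factorial : ℝ) := by
  have hr : 0 ≤ r := (norm_nonneg w).trans hw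
  rw [norm_div, norm_mul, norm_pow, norm_pow, norm_neg, norm_one, one_pow, one_mul, Complex.norm_natCast]
  refine div_le_div₀ (by positivity) (pow_le_pow_left₀ (norm_nonneg _) hw n) (by positivity) ?_
  exact_mod_cast Nat.factorial_le (by omega)

lemma summable_term (r : ℝ) : Summable fun n : ℕ => r ^ n / (n.factorial : ℝ) :=
  Real.summable_pow_div_factorial r

lemma Sn_diff : Differentiable ℂ Sn := by
  intro w
  have h : DifferentiableOn ℂ Sn (Metric.ball 0 (‖w‖ + 1)) := by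
    refine Complex.differentiableOn_tsum_of_summable_norm (summable_term (‖w‖ + 1)) (fun n => ?_)
      Metric.isOpen_ball (fun n z hz => ?_)
    · fun_prop
    · refine term_le ?_ n
      rw [Metric.mem_ball, dist_zero_right] at hz
      exact hz.le
  exact h.differentiableAt (Metric.isOpen_ball.mem_nhds (by simp))

lemma Sn_sq (s : ℂ) : s * Sn (s ^ 2) = sin s := by
  have h := (Complex.hasSum_sin s).tsum_eq
  rw [← h, Sn, ← tsum_mul_left]
  refine tsum_congr fun n => ?_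
  rw [pow_succ s (2 * n), pow_mul]
  ring

lemma Sn_zero : Sn 0 = 1 := by
  unfold Sn
  rw [tsum_eq_single 0]
  · simp
  · intro n hn
    simp [hn]

/-- the derivative of the defining relation -/
lemma Sn_deriv (s : ℂ) : Sn (s ^ 2) + s * (deriv Sn (s ^ 2) * (2 * s)) = cos s := by
  have h1 : HasDerivAt (fun s : ℂ => s * Sn (s ^ 2)) (1 * Sn (s ^ 2) + s * (deriv Sn (s ^ 2) * (2 * s))) s := by
    have h2 : HasDerivAt (fun s : ℂ => s ^ 2) (2 * s) s := by
      simpa using hasDerivAt_pow 2 s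
    have h3 : HasDerivAt (fun s : ℂ => Sn (s ^ 2)) (deriv Sn (s ^ 2) * (2 * s)) s :=
      HasDerivAt.comp (h := fun s : ℂ => s ^ 2) (h₂ := Sn) s (Sn_diff (s ^ 2)).hasDerivAt h2
    exact (hasDerivAt_id s).mul h3
  have h4 : (fun s : ℂ => s * Sn (s ^ 2)) = sin := funext Sn_sq
  rw [h4] at h1
  have := h1.unique (Complex.hasDerivAt_sin s)
  rw [one_mul] at this
  exact this

/-- the zeros of `S` -/
lemma Sn_eq_zero {w : ℂ} (h : Sn w = 0) : ∃ k : ℕ, w = ((Real.pi * (k + 1) : ℝ) : ℂ) ^ 2 := by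
  obtain ⟨s, hs⟩ : ∃ s : ℂ, s ^ 2 = w := ⟨w ^ (1 / 2 : ℂ), by
    rw [← Complex.cpow_nat_mul]; norm_num⟩
  have h1 := Sn_sq s
  rw [hs, h, mul_zero] at h1
  obtain ⟨m, hm⟩ := Complex.sin_eq_zero_iff.1 h1.symm
  have hm0 : m ≠ 0 := by
    rintro rfl
    have : s = 0 := by rw [hm]; simp
    rw [this] at hs
    rw [← hs] at h
    have h2 : Sn 0 = 0 := by simpa using h
    rw [Sn_zero] at h2
    exact one_ne_zero h2
  obtain ⟨k, hk⟩ : ∃ k : ℕ, m.natAbs = k + 1 := Nat.exists_eq_succ_of_ne_zero (Int.natAbs_ne_zero.2 hm0)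
  refine ⟨k, ?_⟩
  rw [← hs, hm]
  have h3 : ((m : ℂ)) ^ 2 = ((k : ℂ) + 1) ^ 2 := by
    have h4 : (m ^ 2 : ℤ) = ((k : ℤ) + 1) ^ 2 := by
      rw [← Int.natAbs_sq, hk]; push_cast; ring
    exact_mod_cast h4
  push_cast
  rw [mul_pow, mul_pow, h3]
  ring

/-- the value of the derivative at the zeros -/
lemma Sn_zero_at (k : ℕ) : Sn (((Real.pi * (k + 1) : ℝ) : ℂ) ^ 2) = 0 ∧
    deriv Sn (((Real.pi * (k + 1) : ℝ) : ℂ) ^ 2) * (2 * ((Real.pi * (k + 1) : ℝ) : ℂ) ^ 2) = (-1) ^ (k + 1) := by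
  set s : ℂ := ((Real.pi * (k + 1) : ℝ) : ℂ) with hs
  have hs0 : s ≠ 0 := by
    rw [hs, Complex.ofReal_ne_zero]
    have : 0 < Real.pi * (k + 1) := by positivity
    exact this.ne'
  have h1 := Sn_sq s
  have h2 : sin s = 0 := by
    rw [hs, ← Complex.ofReal_sin]
    have : Real.sin (Real.pi * (k + 1)) = 0 := by
      have := Real.sin_nat_mul_pi (k + 1)
      push_cast at this
      rw [mul_comm]; exact this
    rw [this]; simp
  have h3 : Sn (s ^ 2) = 0 := by
    rw [h2] at h1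
    exact (mul_eq_zero.1 h1).resolve_left hs0
  refine ⟨h3, ?_⟩
  have h4 := Sn_deriv s
  rw [h3, zero_add] at h4
  have h5 : cos s = (-1) ^ (k + 1) := by
    rw [hs, ← Complex.ofReal_cos]
    have : Real.cos (Real.pi * (k + 1)) = (-1) ^ (k + 1) := by
      have := Real.cos_nat_mul_pi (k + 1)
      push_cast at this
      rw [mul_comm]; exact this
    rw [this]; push_cast; rfl
  rw [← h5, ← h4]
  ring

end

end Pool.Agent.J4.H62.NR
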