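import Pool.Agent.J4.H62.NR.Sinc

set_option autoImplicit false

/-! The lower bound on the circle. -/

namespace Pool.Agent.J4.H62.NR

open Filter Topology

noncomputable section

lemma sin_re_im (s : ℂ) : (Complex.sin s).re = Real.sin s.re * Real.cosh s.im ∧
    (Complex.sin s).im = Real.cos s.re * Real.sinh s.im := by
  have h := Complex.sin_eq s
  rw [← Complex.ofReal_sin, ← Complex.ofReal_cosh, ← Complex.ofReal_cos, ← Complex.ofReal_sinh] at h
  have h2 : Complex.sin s = ((Real.sin s.re * Real.cosh s.im : ℝ) : ℂ) +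
      ((Real.cos s.re * Real.sinh s.im : ℝ) : ℂ) * Complex.I := by
    rw [h, Complex.ofReal_mul, Complex.ofReal_mul]
  constructor
  · rw [h2, ← Complex.mk_eq_add_mul_I]
  · rw [h2, ← Complex.mk_eq_add_mul_I]

/-- the lower bound for the sine -/
lemma sin_low {n : ℕ} (hn : 4 ≤ n) {z s : ℂ} (hz : ‖z‖ = Real.pi * (n + 1 / 2)) (hs : ‖s - z‖ ≤ 1 / 8) :
    Real.exp |z.im| ≤ 10 * ‖Complex.sin s‖ := by
  have hpi := Real.pi_gt_three
  obtain ⟨h1, h2⟩ := sin_re_im s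
  set x := s.re
  set y := s.im
  have hy : |y - z.im| ≤ 1 / 8 := by
    have := (Complex.abs_im_le_norm (s - z)).trans hs
    rwa [Complex.sub_im] at this
  have hx : |x - z.re| ≤ 1 / 8 := by
    have := (Complex.abs_re_le_norm (s - z)).trans hs
    rwa [Complex.sub_re] at this
  have hzy : |z.im| ≤ |y| + 1 / 8 := by
    have := abs_sub_abs_le_abs_sub z.im y
    rw [abs_sub_comm] at this
    linarith
  have e18 : Real.exp (1 / 8 : ℝ) ≤ 8 / 7 := by
    have h3 := Real.add_one_le_exp (-(1 / 8) : ℝ)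
    rw [Real.exp_neg] at h3
    have h4 : 0 < Real.exp (1 / 8 : ℝ) := Real.exp_pos _
    have h5 : (Real.exp (1 / 8 : ℝ))⁻¹ * Real.exp (1 / 8 : ℝ) = 1 := inv_mul_cancel₀ h4.ne'
    nlinarith
  have e1 : Real.exp 1 < 2.7182818286 := Real.exp_one_lt_d9
  by_cases hy1 : 1 ≤ |y|
  · have h3 : Real.sinh |y| ≤ ‖Complex.sin s‖ := by
      have h4 : Real.sinh |y| ^ 2 ≤ ‖Complex.sin s‖ ^ 2 := by
        have h5 := Complex.sq_norm (Complex.sin s)
        rw [Complex.normSq_apply, h1, h2] at h5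
        rw [h5]
        have h6 : Real.sinh |y| ^ 2 = Real.sinh y ^ 2 := by
          rcases abs_choice y with h | h
          · rw [h]
          · rw [h, Real.sinh_neg]; ring
        have h7 := Real.cosh_sq y
        have h8 := Real.sin_sq_add_cos_sq x
        have h9 : Real.sinh y ^ 2 = Real.sinh y ^ 2 * (Real.sin x ^ 2 + Real.cos x ^ 2) := by rw [h8, mul_one]
        rw [h6, h9]
        nlinarith [sq_nonneg (Real.sin x)]
      exact (abs_le_of_sq_le_sq' h4 (norm_nonneg _)).2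
    have h4 : Real.exp |y| ≤ 3 * Real.sinh |y| := by
      rw [Real.sinh_eq]
      have h5 : Real.exp (-|y|) ≤ Real.exp (-1) := Real.exp_le_exp.2 (by linarith)
      have h6 : Real.exp 1 ≤ Real.exp |y| := Real.exp_le_exp.2 hy1
      have h7 : Real.exp (-1) * Real.exp 1 = 1 := by rw [← Real.exp_add]; simp
      have h8 : (2.7:ℝ) < Real.exp 1 := by linarith [Real.exp_one_gt_d9]
      have h9 : Real.exp (-1) ≤ 0.4 := by
        have := Real.exp_pos (-1)
        nlinarith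
      linarith
    calc Real.exp |z.im| ≤ Real.exp (|y| + 1 / 8) := Real.exp_le_exp.2 hzy
      _ = Real.exp |y| * Real.exp (1 / 8) := Real.exp_add _ _
      _ ≤ (3 * Real.sinh |y|) * (8 / 7) := by
          gcongr
      _ ≤ 10 * Real.sinh |y| := by
          have : 0 ≤ Real.sinh |y| := Real.sinh_nonneg_iff.2 (abs_nonneg _)
          linarith
      _ ≤ _ := by linarith
  · push Not at hy1
    have h3 : |z.im| ≤ 9 / 8 := by linarith
    have hexp : Real.exp |z.im| ≤ 4 := by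
      calc Real.exp |z.im| ≤ Real.exp (1 + 1 / 8) := Real.exp_le_exp.2 (by linarith)
        _ = Real.exp 1 * Real.exp (1 / 8) := Real.exp_add _ _
        _ ≤ 2.7182818286 * (8 / 7) := by gcongr
        _ ≤ 4 := by norm_num
    set ρ := Real.pi * ((n:ℝ) + 1 / 2) with hρ
    have hn' : (4:ℝ) ≤ n := by exact_mod_cast hn
    have hρ13 : 13 ≤ ρ := by rw [hρ]; nlinarith
    have hzn : z.re ^ 2 + z.im ^ 2 = ρ ^ 2 := by
      have := Complex.sq_norm z
      rw [Complex.normSq_apply, hz] at this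
      nlinarith
    have him : z.im ^ 2 ≤ 81 / 64 := by
      have := abs_nonneg z.im
      rw [← sq_abs]
      nlinarith
    have hre1 : |z.re| ≤ ρ := by
      rw [← hz]; exact Complex.abs_re_le_norm z
    have hre2 : ρ - 1 / 8 ≤ |z.re| := by
      by_contra hcon
      push Not at hcon
      have h0 := abs_nonneg z.re
      have h5 : z.re ^ 2 = |z.re| ^ 2 := (sq_abs _).symm
      nlinarith
    have hxx : |(|x| - ρ)| ≤ 1 / 4 := by
      have h5 : |(|x| - |z.re|)| ≤ 1 / 8 := (abs_abs_sub_abs_le_abs_sub x z.re).trans hx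
      rw [abs_le] at h5 ⊢
      constructor <;> linarith [h5.1, h5.2]
    have hsin : 7 / 8 ≤ |Real.sin x| := by
      have h5 : |Real.sin x| = |Real.sin (|x|)| := by
        rcases abs_choice x with h | h
        · rw [h]
        · rw [h, Real.sin_neg, abs_neg]
      rw [h5]
      set d := |x| - ρ with hd
      have h6 : |x| = d + Real.pi / 2 + n * Real.pi := by rw [hd, hρ]; ring
      rw [h6, Real.sin_add_nat_mul_pi, abs_mul, abs_pow, abs_neg, abs_one, one_pow, one_mul,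
        Real.sin_add_pi_div_two]
      have h7 := Real.one_sub_sq_div_two_le_cos (x := d)
      have h8 : d ^ 2 ≤ 1 / 16 := by
        rw [← sq_abs]
        nlinarith [abs_nonneg d]
      exact le_trans (by linarith) (le_abs_self _)
    have h6 : |Real.sin x| ≤ ‖Complex.sin s‖ := by
      have h7 := Complex.abs_re_le_norm (Complex.sin s)
      rw [h1, abs_mul] at h7
      have h8 : 1 ≤ |Real.cosh y| := (Real.one_le_cosh y).trans (le_abs_self _)
      have h9 : |Real.sin x| * 1 ≤ |Real.sin x| * |Real.cosh y| :=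
        mul_le_mul_of_nonneg_left h8 (abs_nonneg _)
      linarith
    linarith

/-- the lower bound for the interpolating function on the circle -/
lemma sph_low {K : ℝ} (hK : 0 < K) : ∃ n0 : ℕ, ∀ n : ℕ, n0 ≤ n → ∀ z : ℂ, ‖z‖ = Real.pi * (n + 1 / 2) →
    ∀ β : ℝ, |β| ≤ K → Real.pi * (n + 1 / 2) * Real.exp |z.im| ≤
      40 * (‖z ^ 2 + β - ((Real.pi ^ 2 / 4 : ℝ) : ℂ)‖ * ‖Sn (z ^ 2 + β)‖) := by
  obtain ⟨n1, hn1⟩ := exists_nat_ge (8 * K + 12)
  refine ⟨max n1 4, fun n hn z hz β hβ => ?_⟩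
  have hpi := Real.pi_gt_three
  have hpi4 := Real.pi_lt_four
  have hn4 : 4 ≤ n := (le_max_right _ _).trans hn
  have hn1' : 8 * K + 12 ≤ n := hn1.trans (by exact_mod_cast (le_max_left _ _).trans hn)
  set ρ := Real.pi * ((n:ℝ) + 1 / 2) with hρ
  have hρn : 8 * K + 12 ≤ ρ := by
    rw [hρ]
    have : (0:ℝ) ≤ n := Nat.cast_nonneg n
    nlinarith
  have hρ0 : 0 < ρ := by linarith
  -- a square root
  obtain ⟨s0, hs0⟩ : ∃ s : ℂ, s ^ 2 = z ^ 2 + β := ⟨(z ^ 2 + β) ^ (1 / 2 : ℂ), by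
    rw [← Complex.cpow_nat_mul]; norm_num⟩
  obtain ⟨s, hs, hsz⟩ : ∃ s : ℂ, s ^ 2 = z ^ 2 + β ∧ ρ ≤ ‖s + z‖ := by
    have h1 : 2 * ρ ≤ ‖s0 + z‖ + ‖-s0 + z‖ := by
      have : (s0 + z) + (-s0 + z) = 2 * z := by ring
      have h2 := norm_add_le (s0 + z) (-s0 + z)
      rw [this, norm_mul, hz] at h2
      simpa using h2
    by_cases h : ρ ≤ ‖s0 + z‖
    · exact ⟨s0, hs0, h⟩
    · exact ⟨-s0, by rw [neg_sq]; exact hs0, by push Not at h; linarith⟩
  have hdiff : ‖s - z‖ ≤ 1 / 8 := by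
    have h1 : (s - z) * (s + z) = β := by linear_combination hs
    have h2 : ‖s - z‖ * ‖s + z‖ = |β| := by rw [← norm_mul, h1, Complex.norm_real, Real.norm_eq_abs]
    have h3 : ‖s - z‖ * ρ ≤ K := by
      calc ‖s - z‖ * ρ ≤ ‖s - z‖ * ‖s + z‖ := mul_le_mul_of_nonneg_left hsz (norm_nonneg _)
        _ ≤ K := by rw [h2]; exact hβ
    have h4 := norm_nonneg (s - z)
    nlinarith
  have hsin := sin_low hn4 hz hdiff
  have hSn := Sn_sq s
  rw [hs] at hSn
  have hsn1 : ρ - 1 / 8 ≤ ‖s‖ := by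
    have h1 : ‖z‖ ≤ ‖s‖ + ‖s - z‖ := by
      calc ‖z‖ = ‖s - (s - z)‖ := by congr 1; ring
        _ ≤ ‖s‖ + ‖s - z‖ := norm_sub_le _ _
    rw [hz] at h1
    linarith
  have hs0' : 0 < ‖s‖ := by linarith
  have hq : ‖s‖ ^ 2 - 3 ≤ ‖z ^ 2 + β - ((Real.pi ^ 2 / 4 : ℝ) : ℂ)‖ := by
    rw [← hs]
    have h1 : ‖s ^ 2‖ ≤ ‖s ^ 2 - ((Real.pi ^ 2 / 4 : ℝ) : ℂ)‖ + ‖((Real.pi ^ 2 / 4 : ℝ) : ℂ)‖ := by
      calc ‖s ^ 2‖ = ‖(s ^ 2 - ((Real.pi ^ 2 / 4 : ℝ) : ℂ)) + ((Real.pi ^ 2 / 4 : ℝ) : ℂ)‖ := by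
            congr 1; ring
        _ ≤ _ := norm_add_le _ _
    have h2 : ‖((Real.pi ^ 2 / 4 : ℝ) : ℂ)‖ ≤ 3 := by
      rw [Complex.norm_real, Real.norm_eq_abs, abs_of_pos (by positivity)]
      nlinarith [Real.pi_lt_d2]
    rw [norm_pow] at h1
    linarith
  have h5 : ρ * ‖s‖ ≤ 4 * (‖s‖ ^ 2 - 3) := by nlinarith
  have h6 : ‖s‖ * ‖Sn (z ^ 2 + β)‖ = ‖Complex.sin s‖ := by rw [← norm_mul, hSn]
  have h7 : ρ * Real.exp |z.im| * ‖s‖ ≤
      40 * (‖z ^ 2 + β - ((Real.pi ^ 2 / 4 : ℝ) : ℂ)‖ * ‖Sn (z ^ 2 + β)‖) * ‖s‖ := by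
    calc ρ * Real.exp |z.im| * ‖s‖ = (ρ * ‖s‖) * Real.exp |z.im| := by ring
      _ ≤ (4 * (‖s‖ ^ 2 - 3)) * (10 * ‖Complex.sin s‖) := by
          have : 0 ≤ ρ * ‖s‖ := by positivity
          gcongr
          linarith
      _ = 40 * (‖s‖ ^ 2 - 3) * (‖s‖ * ‖Sn (z ^ 2 + β)‖) := by rw [h6]; ring
      _ ≤ 40 * ‖z ^ 2 + β - ((Real.pi ^ 2 / 4 : ℝ) : ℂ)‖ * (‖s‖ * ‖Sn (z ^ 2 + β)‖) := by
          gcongr
      _ = _ := by ring
  exact le_of_mul_le_mul_right h7 hs0'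

end

end Pool.Agent.J4.H62.NR
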