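import Pool.Agent.W184.ZetaB
import Pool.Agent.H370R2.DirGood

set_option autoImplicit false

/-! Growth of zeta near the critical line in terms of its maximum on a window of the line. -/

namespace Pool.Agent.J4.H62.NR

open Filter Topology Complex

noncomputable section

lemma zeta_right {s : ℂ} (hs : 2 ≤ s.re) : ‖riemannZeta s‖ ≤ 2 := by
  rw [zeta_eq_tsum_one_div_nat_add_one_cpow (by linarith)]
  have hterm : ∀ n : ℕ, ‖1 / ((n : ℂ) + 1) ^ s‖ ≤ 1 / ((n : ℝ) + 1) ^ 2 := by
    intro n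
    have h1 : ((n : ℂ) + 1) = (((n : ℝ) + 1 : ℝ) : ℂ) := by push_cast; ring
    rw [norm_div, norm_one, h1, Complex.norm_cpow_eq_rpow_re_of_pos (by positivity)]
    apply one_div_le_one_div_of_le (by positivity)
    rw [← Real.rpow_natCast]
    apply Real.rpow_le_rpow_of_exponent_le _ (by exact_mod_cast hs)
    have : (0 : ℝ) ≤ n := Nat.cast_nonneg n
    linarith
  have hz2 := hasSum_zeta_two
  have hs2 : Summable (fun n : ℕ => 1 / ((n : ℝ) + 1) ^ 2) := by
    have := (summable_nat_add_iff 1).2 hz2.summable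
    refine this.congr fun n => ?_
    push_cast
    rfl
  have hz : ∑' n : ℕ, 1 / ((n : ℝ) + 1) ^ 2 = Real.pi ^ 2 / 6 := by
    have h2 := hz2.summable.tsum_eq_zero_add
    rw [hz2.tsum_eq] at h2
    simp only [Nat.cast_zero, ne_eq, OfNat.ofNat_ne_zero, not_false_eq_true, zero_pow, div_zero, zero_add] at h2
    rw [h2]
    refine tsum_congr fun n => ?_
    push_cast
    rfl
  have hb := tsum_of_norm_bounded hs2.hasSum hterm
  rw [hz] at hb
  have := Real.pi_lt_d2
  have := Real.pi_pos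
  nlinarith

/-- the exponent of the comparison factor -/
lemma norm_fac (K κ t1 : ℝ) (s : ℂ) :
    ‖cexp (K * (s - (1 / 2 + I * t1)) ^ 2 - κ * (s - (1 / 2 + I * t1)))‖ =
      Real.exp (K * ((s.re - 1 / 2) ^ 2 - (s.im - t1) ^ 2) - κ * (s.re - 1 / 2)) := by
  rw [Complex.norm_exp]
  congr 1
  have h1 : (s - (1 / 2 + I * t1) : ℂ) = ((s.re - 1 / 2 : ℝ) : ℂ) + ((s.im - t1 : ℝ) : ℂ) * I := by
    apply Complex.ext
    · simp
    · simp
  rw [h1]
  set x := s.re - 1 / 2
  set y := s.im - t1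
  have h2 : (K * ((x : ℂ) + (y : ℂ) * I) ^ 2 - κ * ((x : ℂ) + (y : ℂ) * I) : ℂ) =
      ((K * (x ^ 2 - y ^ 2) - κ * x : ℝ) : ℂ) + ((2 * K * x * y - κ * y : ℝ) : ℂ) * I := by
    push_cast
    have : I ^ 2 = -1 := Complex.I_sq
    linear_combination ((K:ℂ) * (y:ℂ) ^ 2) * this
  rw [h2, ← Complex.mk_eq_add_mul_I]

/-- the maximum principle in a rectangle to the right of the critical line -/
lemma seg {C0 A0 : ℝ} (hC0 : 0 < C0) (hA0 : 0 < A0) (hgr : ∀ s : ℂ, (1 / 16 : ℝ) ≤ s.re → s.re ≤ 4 → 1 ≤ s.im →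
    ‖riemannZeta s‖ ≤ C0 * s.im ^ A0) {B K κ M t1 : ℝ} (hB : 0 < B) (hK : 0 ≤ K) (hκ : 0 ≤ κ)
    (ht : 1 ≤ t1 - B) (hleft : ∀ u : ℝ, |u - t1| ≤ B → ‖riemannZeta (1 / 2 + I * u)‖ ≤ M)
    (hright : 2 * Real.exp (K * (25 / 4) - κ * (5 / 2)) ≤ M)
    (htop : C0 * (t1 + B) ^ A0 * Real.exp (K * (25 / 4 - B ^ 2)) ≤ M)
    {η : ℝ} (hη0 : 0 ≤ η) (hη : η ≤ 5 / 2) :
    ‖riemannZeta (1 / 2 + η + I * t1)‖ * Real.exp (K * η ^ 2 - κ * η) ≤ M := by
  set U : Set ℂ := Set.Ioo (1 / 2 : ℝ) 3 ×ℂ Set.Ioo (t1 - B) (t1 + B) with hU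
  set f : ℂ → ℂ := fun s => riemannZeta s * cexp (K * (s - (1 / 2 + I * t1)) ^ 2 - κ * (s - (1 / 2 + I * t1))) with hf
  have hcl : closure U = Set.Icc (1 / 2 : ℝ) 3 ×ℂ Set.Icc (t1 - B) (t1 + B) := by
    rw [hU, Complex.closure_reProdIm, closure_Ioo (by norm_num), closure_Ioo (by linarith)]
  have hopen : IsOpen U := by
    rw [hU]; exact isOpen_Ioo.reProdIm isOpen_Ioo
  have hbd : Bornology.IsBounded U := by
    rw [hU]; exact (Metric.isBounded_Ioo _ _).reProdIm (Metric.isBounded_Ioo _ _)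
  have hd : ∀ s ∈ closure U, DifferentiableAt ℂ f s := by
    intro s hs
    rw [hcl, Complex.mem_reProdIm] at hs
    have hs1 : s ≠ 1 := by
      rintro rfl
      have := hs.2.1
      simp at this
      linarith
    simp only [hf]
    exact (differentiableAt_riemannZeta hs1).mul (by fun_prop)
  have hdc : DiffContOnCl ℂ f U :=
    ⟨fun s hs => (hd s (subset_closure hs)).differentiableWithinAt,
      fun s hs => (hd s hs).continuousAt.continuousWithinAt⟩
  have hmain := Complex.norm_le_of_forall_mem_frontier_norm_le hbd hdc (C := M) (fun s hs => by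
    have h1 := hs.1
    have h2 : s ∉ U := by
      have := hs.2
      rwa [hopen.interior_eq] at this
    rw [hcl, Complex.mem_reProdIm] at h1
    obtain ⟨⟨a1, a2⟩, a3, a4⟩ := h1
    simp only [hf]
    rw [norm_mul, norm_fac]
    have hx0 : 0 ≤ s.re - 1 / 2 := by linarith
    have hx1 : (s.re - 1 / 2) ^ 2 ≤ 25 / 4 := by nlinarith
    have hκx : 0 ≤ κ * (s.re - 1 / 2) := by positivity
    rcases a1.eq_or_lt with h | h
    · have e1 : s = 1 / 2 + I * (s.im : ℂ) := by
        apply Complex.ext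
        · simp [← h]
        · simp
      have h3 := hleft s.im (by rw [abs_le]; constructor <;> linarith)
      rw [← e1] at h3
      have h4 : Real.exp (K * ((s.re - 1 / 2) ^ 2 - (s.im - t1) ^ 2) - κ * (s.re - 1 / 2)) ≤ 1 := by
        rw [Real.exp_le_one_iff, ← h]
        have : 0 ≤ K * (s.im - t1) ^ 2 := by positivity
        nlinarith
      calc _ ≤ ‖riemannZeta s‖ * 1 := mul_le_mul_of_nonneg_left h4 (norm_nonneg _)
        _ ≤ M := by rw [mul_one]; exact h3
    rcases a2.eq_or_lt with h' | h'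
    · have h3 := zeta_right (s := s) (by rw [h']; norm_num)
      have h4 : Real.exp (K * ((s.re - 1 / 2) ^ 2 - (s.im - t1) ^ 2) - κ * (s.re - 1 / 2)) ≤
          Real.exp (K * (25 / 4) - κ * (5 / 2)) := by
        apply Real.exp_le_exp.2
        rw [h']
        have : 0 ≤ K * (s.im - t1) ^ 2 := by positivity
        nlinarith
      refine le_trans ?_ hright
      exact mul_le_mul h3 h4 (Real.exp_pos _).le (by norm_num)
    have h3 : (s.im - t1) ^ 2 = B ^ 2 := by
      rcases a3.eq_or_lt with h'' | h''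
      · rw [← h'']; ring
      rcases a4.eq_or_lt with h''' | h'''
      · rw [h''']; ring
      · exact absurd (by rw [hU, Complex.mem_reProdIm]; exact ⟨⟨h, h'⟩, h'', h'''⟩) h2
    have h4 := hgr s (by linarith) (by linarith) (by linarith)
    have h5 : s.im ^ A0 ≤ (t1 + B) ^ A0 := Real.rpow_le_rpow (by linarith) a4 hA0.le
    have h6 : Real.exp (K * ((s.re - 1 / 2) ^ 2 - (s.im - t1) ^ 2) - κ * (s.re - 1 / 2)) ≤
          Real.exp (K * (25 / 4 - B ^ 2)) := by
      apply Real.exp_le_exp.2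
      rw [h3]
      have : K * ((s.re - 1 / 2) ^ 2) ≤ K * (25 / 4) := mul_le_mul_of_nonneg_left hx1 hK
      nlinarith
    refine le_trans ?_ htop
    refine mul_le_mul (h4.trans ?_) h6 (Real.exp_pos _).le (by
      have : 0 ≤ t1 + B := by linarith
      positivity)
    exact mul_le_mul_of_nonneg_left h5 hC0.le) (z := 1 / 2 + η + I * t1) (by
    rw [hcl, Complex.mem_reProdIm]
    constructor
    · simp; constructor <;> linarith
    · simp; linarith)
  simp only [hf] at hmain
  rw [norm_mul, norm_fac] at hmain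
  have e1 : ((1 / 2 + (η:ℂ) + I * t1) : ℂ).re = 1 / 2 + η := by simp
  have e2 : ((1 / 2 + (η:ℂ) + I * t1) : ℂ).im = t1 := by simp
  rw [e1, e2] at hmain
  have e3 : K * ((1 / 2 + η - 1 / 2) ^ 2 - (t1 - t1) ^ 2) - κ * (1 / 2 + η - 1 / 2) = K * η ^ 2 - κ * η := by ring
  rw [e3] at hmain
  exact hmain

/-- the bound to the right of the critical line -/
lemma window (R : ℝ) (hR : 1 ≤ R) : ∃ A T0 : ℝ, 1 ≤ A ∧ 1 ≤ T0 ∧ ∀ t : ℝ, T0 ≤ t → ∀ M : ℝ,
    (∀ u : ℝ, |u - t| ≤ A → ‖riemannZeta (1 / 2 + I * u)‖ ≤ M) →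
    ∀ t1 η : ℝ, |t1 - t| ≤ 1 → 0 ≤ η → η ≤ R / Real.log t → 1 / t ≤ M ∧
      ‖riemannZeta (1 / 2 + η + I * t1)‖ ≤ 2 * M := by
  obtain ⟨C0, A0, hC0, hA0, hgr⟩ := H370.good_zeta.growth
  obtain ⟨c0, hc0, hlow⟩ := H370.good_zeta.lower
  set B := Real.sqrt (25 / 4 + (A0 + 3) * (100 * R)) with hB
  have hB2 : B ^ 2 = 25 / 4 + (A0 + 3) * (100 * R) := Real.sq_sqrt (by positivity)
  have hB0 : 0 < B := Real.sqrt_pos.2 (by positivity)
  set C1 := |Real.log (2 / c0)| with hC1
  have hC10 : 0 ≤ C1 := abs_nonneg _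
  have hev : ∀ᶠ t : ℝ in atTop, B + 2 ≤ t ∧ C0 * 2 ^ A0 ≤ t ^ 2 ∧ 100 * (C1 + 1) * R ≤ Real.log t := by
    refine (eventually_ge_atTop _).and (((tendsto_pow_atTop (by norm_num)).eventually_ge_atTop _).and
      (Real.tendsto_log_atTop.eventually_ge_atTop _))
  obtain ⟨T1, hT1⟩ := eventually_atTop.1 hev
  refine ⟨B + 1, max T1 1, by linarith, le_max_right _ _, ?_⟩
  intro t ht M hM t1 η ht1 hη0 hη
  obtain ⟨hta, htb, htc⟩ := hT1 t ((le_max_left _ _).trans ht)
  have ht1' := abs_le.1 ht1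
  have ht0 : 1 < t := by linarith
  set l := Real.log t with hl
  have hR1 : 100 ≤ 100 * (C1 + 1) * R := by nlinarith
  have hl100 : 100 ≤ l := hR1.trans htc
  have hl0 : 0 < l := by linarith
  set K := l / (100 * R) with hKd
  have hK0 : 0 ≤ K := by positivity
  have hKl : K ≤ l / 100 := by
    rw [hKd]
    exact div_le_div_of_nonneg_left hl0.le (by norm_num) (by linarith)
  have hKR : K * R = l / 100 := by rw [hKd]; field_simp
  -- the top
  have htop : C0 * (t1 + B) ^ A0 * Real.exp (K * (25 / 4 - B ^ 2)) ≤ 1 / t := by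
    have e1 : K * (25 / 4 - B ^ 2) = -(A0 + 3) * l := by
      rw [hB2, hKd]; field_simp; ring
    have e2 : Real.exp (-(A0 + 3) * l) = t ^ (-(A0 + 3)) := by
      rw [Real.rpow_def_of_pos (by linarith), hl]; ring_nf
    rw [e1, e2]
    have h1 : (t1 + B) ^ A0 ≤ (2 * t) ^ A0 := Real.rpow_le_rpow (by linarith) (by linarith) hA0.le
    have h2 : (2 * t) ^ A0 = 2 ^ A0 * t ^ A0 := Real.mul_rpow (by norm_num) (by linarith)
    calc C0 * (t1 + B) ^ A0 * t ^ (-(A0 + 3)) ≤ C0 * (2 ^ A0 * t ^ A0) * t ^ (-(A0 + 3)) := by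
          rw [← h2]; gcongr
      _ = (C0 * 2 ^ A0) * (t ^ A0 * t ^ (-(A0 + 3))) := by ring
      _ = (C0 * 2 ^ A0) * t ^ (-(3:ℝ)) := by
          rw [← Real.rpow_add (by linarith)]; ring_nf
      _ ≤ t ^ 2 * t ^ (-(3:ℝ)) := by gcongr
      _ = 1 / t := by
          rw [← Real.rpow_natCast t 2, ← Real.rpow_add (by linarith)]
          norm_num
          rw [Real.rpow_neg_one]
  -- the consequences for a bound at least `1 / t`
  have hstep : ∀ M' : ℝ, 1 / t ≤ M' → (∀ u : ℝ, |u - t| ≤ B + 1 → ‖riemannZeta (1 / 2 + I * u)‖ ≤ M') →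
      (max 0 (Real.log (2 / M')) ≤ 15 / 4 * K + 5 / 2 * C1 ∧
      ∀ η : ℝ, 0 ≤ η → η ≤ R / l → ‖riemannZeta (1 / 2 + η + I * t1)‖ ≤ 2 * M') := by
    intro M' hM' hleft'
    have hM0 : 0 < M' := lt_of_lt_of_le (by positivity) hM'
    set m := max 0 (Real.log (2 / M')) with hm
    have hm0 : 0 ≤ m := le_max_left _ _
    set κ := 5 / 2 * K + 2 / 5 * m with hκ
    have hκ0 : 0 ≤ κ := by positivity
    have hright : 2 * Real.exp (K * (25 / 4) - κ * (5 / 2)) ≤ M' := by
      have e1 : K * (25 / 4) - κ * (5 / 2) = -m := by rw [hκ]; ring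
      rw [e1]
      have h1 : Real.exp (-m) ≤ Real.exp (-(Real.log (2 / M'))) :=
        Real.exp_le_exp.2 (neg_le_neg (le_max_right _ _))
      rw [Real.exp_neg (Real.log _), Real.exp_log (by positivity)] at h1
      have h2 : (2 / M')⁻¹ = M' / 2 := by rw [inv_div]
      rw [h2] at h1
      linarith
    have hseg : ∀ η : ℝ, 0 ≤ η → η ≤ 5 / 2 → ‖riemannZeta (1 / 2 + η + I * t1)‖ * Real.exp (K * η ^ 2 - κ * η) ≤ M' :=
      fun η h0 h1 => seg hC0 hA0 hgr hB0 hK0 hκ0 (by linarith) (fun u hu => hleft' u (by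
        calc |u - t| = |(u - t1) + (t1 - t)| := by congr 1; ring
          _ ≤ |u - t1| + |t1 - t| := abs_add_le _ _
          _ ≤ B + 1 := by linarith)) hright (htop.trans hM') h0 h1
    have hmb : m ≤ 15 / 4 * K + 5 / 2 * C1 := by
      rcases le_total (Real.log (2 / M')) 0 with h0 | h0
      · rw [hm, max_eq_left h0]; positivity
      · have hm' : m = Real.log (2 / M') := by rw [hm, max_eq_right h0]
        have h1 := hseg (3 / 2) (by norm_num) (by norm_num)
        have e1 : (1 / 2 + ((3 / 2 : ℝ) : ℂ) + I * t1) = (⟨2, t1⟩ : ℂ) := by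
          apply Complex.ext
          · simp; norm_num
          · simp
        rw [e1] at h1
        have h2 := hlow t1 (by linarith)
        have h3 : c0 * Real.exp (K * (3 / 2) ^ 2 - κ * (3 / 2)) ≤ M' :=
          (mul_le_mul_of_nonneg_right h2 (Real.exp_pos _).le).trans h1
        have h4 := Real.log_le_log (by positivity) h3
        rw [Real.log_mul hc0.ne' (Real.exp_pos _).ne', Real.log_exp] at h4
        have e2 : Real.log M' = Real.log 2 - m := by
          rw [hm', Real.log_div (by norm_num) hM0.ne']; ring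
        rw [e2] at h4
        have e3 : Real.log (2 / c0) = Real.log 2 - Real.log c0 := Real.log_div (by norm_num) hc0.ne'
        have h5 : Real.log 2 - Real.log c0 ≤ C1 := by rw [← e3]; exact le_abs_self _
        rw [hκ] at h4
        linarith
    refine ⟨hmb, fun η h0 h1 => ?_⟩
    have hη52 : η ≤ 5 / 2 := by
      refine h1.trans ?_
      rw [div_le_iff₀ hl0]
      nlinarith
    have h2 := hseg η h0 hη52
    have h3 : κ * η ≤ 1 / 2 := by
      have h4 : κ ≤ 4 * K + C1 := by rw [hκ]; linarith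
      calc κ * η ≤ (4 * K + C1) * (R / l) := mul_le_mul h4 h1 h0 (by positivity)
        _ = (4 * (K * R) + C1 * R) / l := by ring
        _ ≤ 1 / 2 := by
            rw [hKR, div_le_iff₀ hl0]
            nlinarith
    have h4 : Real.exp (-(1 / 2)) ≤ Real.exp (K * η ^ 2 - κ * η) := by
      apply Real.exp_le_exp.2
      have : 0 ≤ K * η ^ 2 := by positivity
      linarith
    have h5 : 1 / 2 ≤ Real.exp (-(1 / 2)) := by
      have := Real.add_one_le_exp (-(1 / 2) : ℝ)
      linarith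
    have h6 := norm_nonneg (riemannZeta (1 / 2 + η + I * t1))
    nlinarith
  by_cases hMt : 1 / t ≤ M
  · exact ⟨hMt, (hstep M hMt hM).2 η hη0 hη⟩
  · exfalso
    push Not at hMt
    have h1 := (hstep (1 / t) le_rfl (fun u hu => (hM u hu).trans hMt.le)).1
    have h2 : Real.log (2 / (1 / t)) = Real.log 2 + l := by
      rw [div_div_eq_mul_div, div_one, Real.log_mul (by norm_num) (by linarith)]
    have h3 := (le_max_right 0 (Real.log (2 / (1 / t)))).trans h1
    rw [h2] at h3
    have h4 : 0 < Real.log 2 := Real.log_pos (by norm_num)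
    have h5 : 100 * C1 ≤ l := by nlinarith
    nlinarith

/-- zeta in normalised coordinates -/
def fz (t : ℝ) (z : ℂ) : ℂ := cexp (I * z) * riemannZeta (1 / 2 + I * (t + 2 * z / Real.log (t / (2 * Real.pi))))

/-- the bound in a disc in normalised coordinates -/
lemma fz_bound (R : ℝ) (hR : 1 ≤ R) : ∃ A T0 : ℝ, 1 ≤ A ∧ 1 ≤ T0 ∧ ∀ t : ℝ, T0 ≤ t → ∀ M : ℝ,
    (∀ u : ℝ, |u - t| ≤ A → ‖riemannZeta (1 / 2 + I * u)‖ ≤ M) → 0 < M ∧
    (∀ z : ℂ, ‖z‖ ≤ R → ‖fz t z‖ ≤ 8 * M * Real.exp |z.im| ∧ DifferentiableAt ℂ (fz t) z) ∧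
    (∀ x : ℝ, |x| ≤ R → ‖fz t x‖ ≤ M) := by
  obtain ⟨A, T1, hA, hT1, hw⟩ := window (4 * R) (by linarith)
  have hev : ∀ᶠ t : ℝ in atTop, 200 ≤ t ∧ 100 * R + 100 ≤ Real.log t := by
    refine (eventually_ge_atTop _).and (Real.tendsto_log_atTop.eventually_ge_atTop _)
  obtain ⟨T2, hT2⟩ := eventually_atTop.1 hev
  refine ⟨A, max T1 T2, hA, hT1.trans (le_max_left _ _), fun t ht M hM => ?_⟩
  have hw' := hw t ((le_max_left _ _).trans ht) M hM
  obtain ⟨hta, htb⟩ := hT2 t ((le_max_right _ _).trans ht)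
  have ht0 : 0 < t := by linarith
  have hpi := Real.pi_gt_three
  have hM0 : 0 ≤ M := (norm_nonneg _).trans (hM t (by simp; linarith))
  set l := Real.log t with hl
  set L := Real.log (t / (2 * Real.pi)) with hL
  have hLl : L = l - Real.log (2 * Real.pi) := Real.log_div ht0.ne' (by positivity)
  have hl2pi : Real.log (2 * Real.pi) ≤ 2 := by
    rw [Real.log_le_iff_le_exp (by positivity)]
    have h1 : Real.exp 2 = Real.exp 1 ^ 2 := by rw [← Real.exp_nat_mul]; norm_num
    rw [h1]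
    nlinarith [Real.exp_one_gt_d9, Real.pi_lt_d2]
  have hl2pi' : 0 ≤ Real.log (2 * Real.pi) := Real.log_nonneg (by linarith)
  have hLlow : l / 2 ≤ L := by linarith
  have hL0 : 0 < L := by linarith
  have hLR : 40 * R ≤ L := by linarith
  have hcoord : ∀ z : ℂ, ‖z‖ ≤ R → |2 * z.re / L| ≤ 1 ∧ |2 * z.im / L| ≤ 1 / 8 ∧ 2 * |z.im| / L ≤ 4 * R / l := by
    intro z hz
    have h1 := (Complex.abs_re_le_norm z).trans hz
    have h2 := (Complex.abs_im_le_norm z).trans hz
    refine ⟨?_, ?_, ?_⟩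
    · rw [abs_div, abs_mul, abs_of_pos hL0, div_le_iff₀ hL0, abs_two]; linarith
    · rw [abs_div, abs_mul, abs_of_pos hL0, div_le_iff₀ hL0, abs_two]; linarith
    · rw [div_le_div_iff₀ hL0 (by linarith)]
      have h3 := abs_nonneg z.im
      nlinarith
  refine ⟨lt_of_lt_of_le (by positivity) (hw' t 0 (by simp) le_rfl (div_nonneg (by linarith) (by linarith))).1, ?_⟩
  constructor
  · intro z hz
    obtain ⟨h1, h2, h3⟩ := hcoord z hz
    set x := z.re with hx
    set y := z.im with hy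
    set t1 := t + 2 * x / L with ht1
    have harg : (1 / 2 + I * (t + 2 * z / (L:ℂ)) : ℂ) = 1 / 2 - ((2 * y / L : ℝ) : ℂ) + I * (t1 : ℂ) := by
      have hz' : z = x + y * I := (Complex.re_add_im z).symm
      rw [hz', ht1]
      push_cast
      have : I ^ 2 = -1 := Complex.I_sq
      linear_combination (2 * (y:ℂ) / L) * this
    have ht1t : |t1 - t| ≤ 1 := by rw [ht1, add_sub_cancel_left]; exact h1
    have ht1' := abs_le.1 ht1t
    have he : ‖cexp (I * z)‖ = Real.exp (-y) := by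
      rw [Complex.norm_exp]; congr 1; simp [hy]
    constructor
    · unfold fz
      rw [norm_mul, he, harg]
      rcases le_total y 0 with hy0 | hy0
      · have habs : |y| = -y := abs_of_nonpos hy0
        rw [habs]
        have h4 := (hw' t1 (-(2 * y / L)) ht1t (by
          rw [neg_nonneg]
          exact div_nonpos_of_nonpos_of_nonneg (by linarith) hL0.le) (by
          rw [habs] at h3
          refine le_trans (le_of_eq ?_) h3
          ring)).2
        have e1 : (1 / 2 + ((-(2 * y / L) : ℝ) : ℂ) + I * t1) = 1 / 2 - ((2 * y / L : ℝ) : ℂ) + I * (t1 : ℂ) := by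
          push_cast; ring
        rw [e1] at h4
        have h5 := Real.exp_pos (-y)
        calc Real.exp (-y) * ‖riemannZeta (1 / 2 - ((2 * y / L : ℝ) : ℂ) + I * (t1 : ℂ))‖ ≤
            Real.exp (-y) * (2 * M) := mul_le_mul_of_nonneg_left h4 h5.le
          _ ≤ 8 * M * Real.exp (-y) := by nlinarith
      · have habs : |y| = y := abs_of_nonneg hy0
        rw [habs] at h3 ⊢
        set η := 2 * y / L with hη
        have hη0 : 0 ≤ η := by positivity
        have h4 := (hw' t1 η ht1t hη0 h3).2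
        have h5 := Pool.Agent.W184.fe_pos (Δ := η) (τ := t1) hη0 ((le_abs_self _).trans h2) (by linarith)
        have e1 : (((1 / 2 - η : ℝ) : ℂ) + t1 * I) = 1 / 2 - (η : ℂ) + I * (t1 : ℂ) := by
          push_cast; ring
        have e2 : (((1 / 2 + η : ℝ) : ℂ) + t1 * I) = 1 / 2 + (η : ℂ) + I * (t1 : ℂ) := by
          push_cast; ring
        rw [e1, e2] at h5
        have h6 : t1 ^ η ≤ 2 * Real.exp (2 * y) := by
          rw [Real.rpow_def_of_pos (by linarith)]
          have h7 : Real.log t1 ≤ L + 3 := by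
            have h8 : Real.log t1 ≤ Real.log (2 * t) := Real.log_le_log (by linarith) (by linarith)
            rw [Real.log_mul (by norm_num) ht0.ne'] at h8
            have h9 : Real.log 2 ≤ 1 := by
              have := Real.log_two_lt_d9; linarith
            linarith
          have h8 : Real.log t1 * η ≤ 2 * y + 1 / 2 := by
            have hyR : y ≤ R := (le_abs_self _).trans ((Complex.abs_im_le_norm z).trans hz)
            calc Real.log t1 * η ≤ (L + 3) * η := mul_le_mul_of_nonneg_right h7 hη0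
              _ = 2 * y + 6 * y / L := by rw [hη]; field_simp; ring
              _ ≤ 2 * y + 1 / 2 := by
                  have : 6 * y / L ≤ 1 / 2 := by
                    rw [div_le_iff₀ hL0]; linarith
                  linarith
          have h9 : Real.exp (1 / 2) ≤ 2 := by
            have h10 := Real.add_one_le_exp (-(1 / 2) : ℝ)
            rw [Real.exp_neg] at h10
            have h11 : 0 < Real.exp (1 / 2 : ℝ) := Real.exp_pos _
            have h12 : (Real.exp (1 / 2 : ℝ))⁻¹ * Real.exp (1 / 2 : ℝ) = 1 := inv_mul_cancel₀ h11.ne'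
            nlinarith
          calc Real.exp (Real.log t1 * η) ≤ Real.exp (2 * y + 1 / 2) := Real.exp_le_exp.2 h8
            _ = Real.exp (2 * y) * Real.exp (1 / 2) := Real.exp_add _ _
            _ ≤ Real.exp (2 * y) * 2 := by gcongr
            _ = _ := by ring
        have h7 : 1 + 16 / t1 ≤ 2 := by
          have : 16 / t1 ≤ 1 := by rw [div_le_one (by linarith)]; linarith
          linarith
        have h8 : ‖riemannZeta (1 / 2 - (η : ℂ) + I * (t1 : ℂ))‖ ≤ (2 * Real.exp (2 * y)) * 2 * (2 * M) := by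
          refine h5.trans ?_
          have : 0 ≤ t1 := by linarith
          gcongr
        have e3 : Real.exp (-y) * Real.exp (2 * y) = Real.exp y := by
          rw [← Real.exp_add]; congr 1; ring
        calc Real.exp (-y) * ‖riemannZeta (1 / 2 - (η : ℂ) + I * (t1 : ℂ))‖ ≤
            Real.exp (-y) * ((2 * Real.exp (2 * y)) * 2 * (2 * M)) :=
              mul_le_mul_of_nonneg_left h8 (Real.exp_pos _).le
          _ = 8 * M * (Real.exp (-y) * Real.exp (2 * y)) := by ring
          _ = _ := by rw [e3]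
    · unfold fz
      have hs1 : (1 / 2 + I * (t + 2 * z / (L:ℂ)) : ℂ) ≠ 1 := by
        rw [harg]
        intro h
        have := congrArg Complex.im h
        simp at this
        linarith
      have h4 : DifferentiableAt ℂ (fun z : ℂ => (1 / 2 + I * (t + 2 * z / (L:ℂ)) : ℂ)) z := by fun_prop
      have h5 : DifferentiableAt ℂ (fun z : ℂ => riemannZeta (1 / 2 + I * (t + 2 * z / (L:ℂ)))) z :=
        DifferentiableAt.comp (g := riemannZeta) z (differentiableAt_riemannZeta hs1) h4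
      exact DifferentiableAt.mul (by fun_prop) h5
  · intro x hx
    obtain ⟨h1, -, -⟩ := hcoord (x:ℂ) (by rw [Complex.norm_real]; exact hx)
    rw [Complex.ofReal_re] at h1
    unfold fz
    have he : ‖cexp (I * (x:ℂ))‖ = 1 := by
      rw [mul_comm]; exact Complex.norm_exp_ofReal_mul_I x
    have harg : (1 / 2 + I * ((t:ℂ) + 2 * (x:ℂ) / (L:ℂ)) : ℂ) = 1 / 2 + I * ((t + 2 * x / L : ℝ) : ℂ) := by
      push_cast; ring
    rw [norm_mul, he, one_mul, harg]
    refine hM _ ?_
    rw [add_sub_cancel_left]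
    linarith

end

end Pool.Agent.J4.H62.NR
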